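import Pool.Agent.COG.Cl

/-! Bad sets: no root sees a large part of the set beyond all small separators. -/

open Finset
open scoped Classical
open Pool.Agent.Helper20.Dense Pool.Agent.QPB

namespace Pool.Agent.COG

variable {V : Type*} [Fintype V] [DecidableEq V] (G : SimpleGraph V)

theorem xt_sub {W : ℕ} (hom : om G Finset.univ ≤ W) {N : Finset V} (hN : N.Nonempty) :
    ∃ D₁ ⊆ N, Conn G D₁ ∧ Xt G 1 D₁ ∧ (chi G N : ℝ) ≤ (W : ℝ) * (chi G D₁ : ℝ) := by
  obtain ⟨D', hD'N, hD'ne, hext', hcmp0⟩ := exists_extr G (chi_isMu G) 1 hN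
  obtain ⟨D₁, hD₁D', hconn, hxt, hchi1, hom1⟩ := QPT.conn_of_xt G le_rfl ⟨hD'ne, hext'⟩
  refine ⟨D₁, hD₁D'.trans hD'N, hconn, hxt, ?_⟩
  have h1 : (chi G N : ℝ) * (om G D₁ : ℝ) ≤ (chi G D₁ : ℝ) * (om G N : ℝ) := by
    rw [hchi1, hom1]
    simpa using hcmp0
  have h2 : (1 : ℝ) ≤ (om G D₁ : ℝ) := by exact_mod_cast om_pos G hxt.1
  have h3 : (om G N : ℝ) ≤ (W : ℝ) := by
    exact_mod_cast (om_mono G (Finset.subset_univ N)).trans hom
  have h4 : (0 : ℝ) ≤ (chi G N : ℝ) := Nat.cast_nonneg _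
  have h5 : (0 : ℝ) ≤ (chi G D₁ : ℝ) := Nat.cast_nonneg _
  have h6 := mul_le_mul_of_nonneg_left h2 h4
  have h7 := mul_le_mul_of_nonneg_left h3 h5
  linarith

theorem bad_exists {t W : ℕ} {K M Q al L : ℝ} (hP : Prm t K M Q al)
    (hL : 2 * K * M * (W : ℝ) ≤ L) (hL1 : 1 ≤ L)
    (hfree : IsEmpty (SimpleGraph.pathGraph t ↪g G)) (hom : om G Finset.univ ≤ W)
    {D0 D : Finset V} (hDD : D ⊆ D0) (hX : Xt G 1 D) (hc : Conn G D)
    (hthn : ∀ D' ⊆ D, (chi G D : ℝ) ≤ L ^ (t - 2) * (chi G D' : ℝ) → Thn G K M Q al D0 D')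
    (hsize : Q ≤ al * (chi G D : ℝ)) :
    ∃ D' ⊆ D, Conn G D' ∧ Xt G 1 D' ∧ (chi G D : ℝ) ≤ L ^ (t - 2) * (chi G D' : ℝ) ∧
      ∀ v ∈ D', M * (chi G (E0 G Q D' v) : ℝ) < (chi G D' : ℝ) := by
  have ht := hP.ht
  have hM := hP.hM
  have hK := hP.hK
  by_contra hcon
  push Not at hcon
  have hKM : (0 : ℝ) ≤ 2 * K * M := by positivity
  have key : ∀ n, n ≤ t - 2 → ∀ j, n ≤ j → j ≤ t - 2 → ∀ X ⊆ D, Xt G 1 X →
      (chi G D : ℝ) ≤ L ^ (t - 2 - j) * (chi G X : ℝ) →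
      ClaimAt G (t - 2 - n) K M Q al X := by
    intro n
    induction n with
    | zero =>
      intro _ j _ _ X _ _ _
      exact claim_base G ht hfree X
    | succ n ih =>
      intro hn j hj hj2 X hXD hxX hchi
      have hi1 : t - 2 - (n + 1) + 1 = t - 2 - n := by omega
      refine claim_step G hP (by omega) (hXD.trans hDD) ?_ ?_
      · rw [hi1]
        exact ih (by omega) j (by omega) hj2 X hXD hxX hchi
      · intro N hN hbig
        have hX1 : (1 : ℝ) ≤ (chi G X : ℝ) := by exact_mod_cast chi_pos G hxX.1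
        have hNpos : 0 < chi G N := by
          rcases Nat.eq_zero_or_pos (chi G N) with h | h
          · rw [h] at hbig
            push_cast at hbig
            linarith
          · exact h
        have hNne : N.Nonempty := nonempty_of_chi_pos G hNpos
        obtain ⟨D₁, hD₁N, hc₁, hx₁, hchi₁⟩ := xt_sub G hom hNne
        have hchi0 : (0 : ℝ) ≤ (chi G D₁ : ℝ) := Nat.cast_nonneg _
        have hchiL : (chi G X : ℝ) ≤ L * (chi G D₁ : ℝ) := by
          calc (chi G X : ℝ) ≤ 2 * K * M * (chi G N : ℝ) := hbig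
            _ ≤ 2 * K * M * ((W : ℝ) * (chi G D₁ : ℝ)) :=
              mul_le_mul_of_nonneg_left hchi₁ hKM
            _ = 2 * K * M * (W : ℝ) * (chi G D₁ : ℝ) := by ring
            _ ≤ L * (chi G D₁ : ℝ) := mul_le_mul_of_nonneg_right hL hchi0
        have hLp : (0 : ℝ) ≤ L ^ (t - 2 - j) := pow_nonneg (by linarith) _
        have hlev : (chi G D : ℝ) ≤ L ^ (t - 2 - (j - 1)) * (chi G D₁ : ℝ) := by
          have h9 : t - 2 - (j - 1) = (t - 2 - j) + 1 := by omega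
          rw [h9, pow_succ, mul_assoc]
          exact hchi.trans (mul_le_mul_of_nonneg_left hchiL hLp)
        have hsub : D₁ ⊆ D := (hD₁N.trans hN).trans hXD
        have hlevt : (chi G D : ℝ) ≤ L ^ (t - 2) * (chi G D₁ : ℝ) := by
          refine hlev.trans (mul_le_mul_of_nonneg_right ?_ hchi0)
          exact pow_le_pow_right₀ hL1 (by omega)
        refine ⟨D₁, hD₁N, hc₁, hthn D₁ hsub hlevt, ?_, ?_⟩
        · rw [hi1]
          exact ih (by omega) (j - 1) (by omega) (by omega) D₁ hsub hx₁ hlev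
        · exact hcon D₁ hsub hc₁ hx₁ hlevt
  have h0 : (chi G D : ℝ) ≤ L ^ (t - 2 - (t - 2)) * (chi G D : ℝ) := by simp
  have hcl := key (t - 2) le_rfl (t - 2) le_rfl le_rfl D (Finset.Subset.refl _) hX h0
  rw [Nat.sub_self] at hcl
  have h2 : (chi G D : ℝ) ≤ L ^ (t - 2) * (chi G D : ℝ) := by
    have h1 : (1 : ℝ) ≤ L ^ (t - 2) := one_le_pow₀ hL1
    have h3 : (0 : ℝ) ≤ (chi G D : ℝ) := Nat.cast_nonneg _
    nlinarith
  obtain ⟨v, hv, hbig⟩ := hcon D (Finset.Subset.refl _) hc hX h2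
  exact claim_final G hP hDD (hthn D (Finset.Subset.refl _) h2) hc hsize hcl hv hbig

end Pool.Agent.COG
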