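import Pool.Agent.COG.Fr

/-! The claim: base, final contradiction, induction step. -/

open Finset
open scoped Classical
open Pool.Agent.Helper20.Dense Pool.Agent.QPB

namespace Pool.Agent.COG

variable {V : Type*} [Fintype V] [DecidableEq V] (G : SimpleGraph V)

theorem claim_base {t : ℕ} {K M Q al : ℝ} (ht : 4 ≤ t)
    (hfree : IsEmpty (SimpleGraph.pathGraph t ↪g G)) (D : Finset V) :
    ClaimAt G (t - 2) K M Q al D := by
  intro R T v k b _ _ _ _ hr htail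
  obtain ⟨r, hr, hbr⟩ := hr
  exfalso
  have h1 : Tail G (t - 2 + 1) r ∅ :=
    Tail.step G htail hr hbr (Finset.empty_subset _) (fun d hd => absurd hd (Finset.notMem_empty _))
  have h2 := Tail.embedding G h1
  rw [show t - 2 + 1 + 1 = t by omega] at h2
  exact hfree.elim h2.some

/-- the final contradiction -/
theorem claim_final {t : ℕ} {K M Q al : ℝ} (hP : Prm t K M Q al) {D0 D : Finset V}
    (hDD : D ⊆ D0) (hthn : Thn G K M Q al D0 D) (hc : Conn G D)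
    (hsize : Q ≤ al * (chi G D : ℝ)) (hcl : ClaimAt G 0 K M Q al D) {v : V} (hv : v ∈ D)
    (hbig : (chi G D : ℝ) ≤ M * (chi G (E0 G Q D v) : ℝ)) : False := by
  have hal : al ≤ 1 / 16 := by
    have h1 := hP.al_le
    have h3 := hP.al_pos
    have h4 : (4 : ℝ) ≤ (t : ℝ) := by exact_mod_cast hP.ht
    nlinarith
  have hal0 := hP.al_pos
  have hM := hP.hM
  have hQ4 := hP.Q_nonneg
  have hQ : 0 ≤ Q := by linarith
  have hF0 := RFrame.root G hc hv hbig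
  obtain ⟨R, _, hF, hcleanR⟩ := RFrame.clean G hP hDD hthn hF0 (by linarith)
  set T := E0 G Q D v with hT
  have hD1 : (1 : ℝ) ≤ (chi G D : ℝ) := by exact_mod_cast chi_pos G ⟨v, hv⟩
  have hb : ∃ b, b ∈ T ∧ b ∈ R := by
    by_contra hcon
    push Not at hcon
    have hTR : T ⊆ T \ R := fun x hx => Finset.mem_sdiff.mpr ⟨hx, hcon x hx⟩
    have h4 : (chi G T : ℝ) ≤ (chi G (T \ R) : ℝ) := by exact_mod_cast chi_mono G hTR
    have h5 := hF.out
    have h6 := mul_le_mul_of_nonneg_left h4 hQ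
    have h7 : (0 : ℝ) ≤ (chi G T : ℝ) := Nat.cast_nonneg _
    have h8 : 4 * M * (chi G T : ℝ) ≤ Q * (chi G T : ℝ) := mul_le_mul_of_nonneg_right hQ4 h7
    nlinarith
  obtain ⟨b, hbT, hbR⟩ := hb
  have hbv : b ≠ v := (hF.far b hbT).1
  have hsub : RFrame G M Q D (cmp G (R \ {b}) v) T v (0 + al + al) := by
    apply RFrame.sub G hQ hF
    · intro x hx
      rw [Finset.mem_singleton] at hx
      rw [hx]
      exact hbR
    · rw [Finset.mem_singleton]
      exact fun h => hbv h.symm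
    · have h3 : (chi G {b} : ℝ) ≤ 1 := by exact_mod_cast chi_singleton_le G b
      have h4 := mul_le_mul_of_nonneg_left h3 hQ
      linarith
    · linarith
  have hsubR : cmp G (R \ {b}) v ⊆ R := (cmp_subset G _ _).trans Finset.sdiff_subset
  have hbn : b ∉ cmp G (R \ {b}) v := by
    intro h
    have h3 := Finset.mem_sdiff.mp (cmp_subset G _ _ h)
    exact h3.2 (Finset.mem_singleton_self b)
  by_cases hadj : ∃ r ∈ cmp G (R \ {b}) v, G.Adj b r
  · have h3 := hcl _ T v _ b hsub (by push_cast; linarith)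
      (fun x hx => hcleanR x (hsubR hx)) hbn hadj (Tail.zero G b _)
    exact hcleanR b hbR h3
  · have hne : cmp G (R \ {b}) v ≠ R := by
      intro h
      rw [h] at hbn
      exact hbn hbR
    have hvR : v ∈ cmp G (R \ {b}) v := by
      apply mem_cmp_self G
      rw [Finset.mem_sdiff, Finset.mem_singleton]
      exact ⟨hF.vR, fun h => hbv h.symm⟩
    obtain ⟨x, hx⟩ := bd_nonempty G hF.conn hsubR ⟨v, hvR⟩ hne
    have h4 := bd_cmp G R {b} v hx
    rw [Finset.mem_singleton] at h4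
    obtain ⟨y, hy, hxy⟩ := ((mem_bd G).mp hx).2
    rw [h4] at hxy
    exact hadj ⟨y, hy, hxy⟩

theorem claim_step {t : ℕ} {K M Q al : ℝ} (hP : Prm t K M Q al) {i : ℕ} (hi : i + 3 ≤ t)
    {D0 D : Finset V} (hDD : D ⊆ D0) (hup : ClaimAt G (i + 1) K M Q al D)
    (hlow : ∀ N ⊆ D, (chi G D : ℝ) ≤ 2 * K * M * (chi G N : ℝ) →
      ∃ D₁ ⊆ N, Conn G D₁ ∧ Thn G K M Q al D0 D₁ ∧
        ClaimAt G (i + 1) K M Q al D₁ ∧
        ∃ v₁ ∈ D₁, (chi G D₁ : ℝ) ≤ M * (chi G (E0 G Q D₁ v₁) : ℝ)) :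
    ClaimAt G i K M Q al D := by
  intro R T v k b hF hk hclean hbR hbr hTail
  obtain ⟨r0, hr0, hbr0⟩ := hbr
  by_contra hnc
  have hal := hP.al_pos
  have hi' : (i : ℝ) + 3 ≤ (t : ℝ) := by exact_mod_cast hi
  have ht0 : (4 : ℝ) ≤ (t : ℝ) := by exact_mod_cast hP.ht
  -- numerics
  have hial : (2 * (i : ℝ) + 6) * al ≤ 1 / 2 := by
    have h1 : (2 * (i : ℝ) + 6) * al ≤ (2 * (t : ℝ)) * al :=
      mul_le_mul_of_nonneg_right (by linarith) hal.le
    have h2 := hP.al_le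
    linarith
  have hi0 : (0 : ℝ) ≤ (i : ℝ) * al := by positivity
  have hk2 : k + al ≤ 1 / 2 := by nlinarith
  have hal1 : al ≤ 1 / 2 := by nlinarith
  have hom0 : (0 : ℝ) ≤ (chi G D : ℝ) := Nat.cast_nonneg _
  have hK := hP.hK
  have hM := hP.hM
  have hM0 : (0 : ℝ) < M := by linarith
  have hK0 : (0 : ℝ) < K := by linarith
  have hQ4 := hP.Q_nonneg
  have hQ : 0 ≤ Q := by linarith
  -- the set `N`
  set N : Finset V := (T ∩ R).filter (fun x => ¬ G.Adj b x) with hN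
  have hNTR : N ⊆ T ∩ R := Finset.filter_subset _ _
  have hND : N ⊆ D := hNTR.trans (Finset.inter_subset_left.trans hF.TD)
  have hbig : (chi G D : ℝ) ≤ 2 * K * M * (chi G N : ℝ) := by
    have h1 : T.filter (fun x => ¬ G.Adj b x) ⊆ N ∪ (T \ R) := by
      intro x hx
      rw [Finset.mem_filter] at hx
      rw [Finset.mem_union]
      by_cases hxR : x ∈ R
      · exact Or.inl (Finset.mem_filter.mpr ⟨Finset.mem_inter.mpr ⟨hx.1, hxR⟩, hx.2⟩)
      · exact Or.inr (Finset.mem_sdiff.mpr ⟨hx.1, hxR⟩)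
    have h2 : (chi G (T.filter (fun x => ¬ G.Adj b x)) : ℝ) ≤
        (chi G N : ℝ) + (chi G (T \ R) : ℝ) := (chi_isMu G).le_add h1
    have h3 : (chi G T : ℝ) <
        K * (chi G (T.filter (fun x => ¬ G.Adj b x)) : ℝ) := not_le.mp hnc
    have h4 : K * (chi G (T.filter (fun x => ¬ G.Adj b x)) : ℝ) ≤
        K * ((chi G N : ℝ) + (chi G (T \ R) : ℝ)) :=
      mul_le_mul_of_nonneg_left h2 hK0.le
    have h5 : M * (chi G T : ℝ) ≤ M * (K * ((chi G N : ℝ) + (chi G (T \ R) : ℝ))) :=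
      mul_le_mul_of_nonneg_left (h3.le.trans h4) hM0.le
    have h6 : (0 : ℝ) ≤ (chi G (T \ R) : ℝ) := Nat.cast_nonneg _
    have h7 : 2 * K * M * (chi G (T \ R) : ℝ) ≤ Q * (chi G (T \ R) : ℝ) :=
      mul_le_mul_of_nonneg_right hP.hQ h6
    have h8 := hF.out
    have h9 : k * (chi G D : ℝ) ≤ 1 * (chi G D : ℝ) :=
      mul_le_mul_of_nonneg_right (by linarith) hom0
    have h10 := hF.big
    nlinarith
  obtain ⟨D₁, hD₁N, hD₁c, hD₁x, hD₁cl, v₁, hv₁, hv₁big⟩ := hlow N hND hbig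
  have hD₁D : D₁ ⊆ D := hD₁N.trans hND
  have hroot := RFrame.root G hD₁c hv₁ hv₁big
  obtain ⟨R₁, hR₁D, hR₁F, hR₁cl⟩ := RFrame.clean G hP (hD₁D.trans hDD) hD₁x hroot
    (by linarith : (0 : ℝ) + al ≤ 1)
  have hR₁N : R₁ ⊆ N := hR₁D.trans hD₁N
  have hR₁T : ∀ x ∈ R₁, x ∈ T := fun x hx => (Finset.mem_inter.mp (hNTR (hR₁N hx))).1
  have hR₁R : R₁ ⊆ R := fun x hx => (Finset.mem_inter.mp (hNTR (hR₁N hx))).2
  have hbR₁ : ∀ x ∈ R₁, ¬ G.Adj b x := fun x hx => (Finset.mem_filter.mp (hR₁N hx)).2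
  obtain ⟨N', Qp, hN'bd, hR₁Qp, hQpR, -, hbdQp, hbQp, hTl⟩ :=
    reach_bd G hR₁R hR₁F.conn ⟨v₁, hR₁F.vR⟩ hbR hbR₁ hTail
  have hN'R : N' ⊆ R := hN'bd.trans (bd_subset G R R₁)
  have hN'nc : ∀ x ∈ N', NCt G K (E0 G Q D₁ v₁) x := by
    intro x hx
    have h1 := (mem_bd G).mp (hN'bd hx)
    refine hD₁cl R₁ (E0 G Q D₁ v₁) v₁ (0 + al) x hR₁F ?_ hR₁cl h1.1.2 h1.2
      (tail_mono G (hTl x hx) hR₁Qp)
    push_cast
    nlinarith
  have hN'om : Q * (chi G N' : ℝ) ≤ al * (chi G D : ℝ) := by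
    have h1 := hD₁x (E0 G Q D₁ v₁) (Finset.filter_subset _ _) hv₁big
    have h2 : (chi G N' : ℝ) ≤
        (chi G (D0.filter (fun x => NCt G K (E0 G Q D₁ v₁) x)) : ℝ) := by
      have h4 : N' ⊆ D0.filter (fun x => NCt G K (E0 G Q D₁ v₁) x) := by
        intro x hx
        exact Finset.mem_filter.mpr ⟨hDD (hF.RD (hN'R hx)), hN'nc x hx⟩
      exact_mod_cast chi_mono G h4
    have h3 : (chi G D₁ : ℝ) ≤ (chi G D : ℝ) := by exact_mod_cast chi_mono G hD₁D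
    have h4 := mul_le_mul_of_nonneg_left h2 hQ
    have h5 := mul_le_mul_of_nonneg_left h3 hal.le
    linarith
  have hvN' : v ∉ N' := by
    intro h
    obtain ⟨y, hy, hvy⟩ := ((mem_bd G).mp (hN'bd h)).2
    exact (hF.far y (hR₁T y hy)).2 hvy
  have hv₁N' : v₁ ∉ N' := fun h => ((mem_bd G).mp (hN'bd h)).1.2 hR₁F.vR
  have hvRN' : v ∈ R \ N' := Finset.mem_sdiff.mpr ⟨hF.vR, hvN'⟩
  have hv₁R' : v₁ ∈ cmp G (R \ N') v := by
    refine hF.uns N' hN'R hvN' (hN'om.trans ?_) v₁ (Finset.mem_sdiff.mpr ⟨Finset.mem_inter.mpr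
      ⟨hR₁T v₁ hR₁F.vR, hR₁R hR₁F.vR⟩, hv₁N'⟩)
    exact mul_le_mul_of_nonneg_right (by linarith) hom0
  have hstay : ∀ a ∈ Qp, ∀ z, Reach G (R \ N') a z → z ∈ Qp := by
    intro a ha z hz
    induction hz with
    | refl => exact ha
    | @tail c d _ hcd ih =>
      by_contra hd
      have h1 := Finset.mem_sdiff.mp hcd.2
      exact h1.2 (hbdQp ((mem_bd G).mpr ⟨⟨h1.1, hd⟩, c, ih, hcd.1.symm⟩))
  have hvQp : v ∈ Qp :=
    hstay v₁ (hR₁Qp hR₁F.vR) v (reach_symm G hvRN' (Finset.mem_filter.mp hv₁R').2)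
  have hR'Qp : cmp G (R \ N') v ⊆ Qp := fun z hz =>
    hstay v hvQp z (Finset.mem_filter.mp hz).2
  have hR'R : cmp G (R \ N') v ⊆ R := (cmp_subset G _ _).trans Finset.sdiff_subset
  have hF' := RFrame.sub G hQ hF hN'R hvN' hN'om (by linarith : k + al ≤ 1)
  have hcl' : RClean G K (cmp G (R \ N') v) T := fun x hx => hclean x (hR'R hx)
  have hempty : ¬ (bd G R (cmp G (R \ N') v)).Nonempty := by
    rintro ⟨x, hx⟩
    have hxN' : x ∈ N' := bd_cmp G R N' v hx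
    have h1 := (mem_bd G).mp hx
    refine hclean x h1.1.1 (hup (cmp G (R \ N') v) T v (k + al) x hF' ?_ hcl' h1.1.2 h1.2
      (tail_mono G (hTl x hxN') hR'Qp))
    push_cast
    nlinarith
  have hReq : cmp G (R \ N') v = R := by
    by_contra hne
    exact hempty (bd_nonempty G hF.conn hR'R ⟨v, mem_cmp_self G hvRN'⟩ hne)
  exact hbQp r0 (hR'Qp (by rw [hReq]; exact hr0)) hbr0

end Pool.Agent.COG
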