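import Pool.Agent.COG.Pair

/-! Joins and cographs. -/

open Finset
open scoped Classical
open Pool.Agent.Helper20.Dense Pool.Agent.QPB

namespace Pool.Agent.COG

/-- the combination of two complete copies -/
lemma join_embedding {V W₁ W₂ : Type} {F₁ : SimpleGraph W₁} {F₂ : SimpleGraph W₂}
    (G : SimpleGraph V) (φ₁ : F₁ ↪g G) (φ₂ : F₂ ↪g G)
    (h : ∀ a b, G.Adj (φ₁ a) (φ₂ b)) : Nonempty ((F₁ᶜ ⊕g F₂ᶜ)ᶜ ↪g G) := by
  refine ⟨⟨⟨Sum.elim φ₁ φ₂, ?_⟩, ?_⟩⟩
  · rintro (a | a) (b | b) hab
    · exact congrArg Sum.inl (φ₁.injective hab)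
    · exact absurd hab (h a b).ne
    · exact absurd hab.symm (h b a).ne
    · exact congrArg Sum.inr (φ₂.injective hab)
  · rintro (a | a) (b | b)
    · simp only [Function.Embedding.coeFn_mk, Sum.elim_inl, SimpleGraph.compl_adj]
      rw [φ₁.map_adj_iff]
      constructor
      · intro h1
        refine ⟨fun h2 => h1.ne (Sum.inl_injective h2), ?_⟩
        simp [h1]
      · rintro ⟨h1, h2⟩
        by_contra h3
        exact h2 (by simpa using ⟨fun h4 => h1 (congrArg Sum.inl h4), h3⟩)
    · simp only [Function.Embedding.coeFn_mk, Sum.elim_inl, Sum.elim_inr, SimpleGraph.compl_adj]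
      constructor
      · intro _
        exact ⟨by simp, by simp⟩
      · intro _
        exact h a b
    · simp only [Function.Embedding.coeFn_mk, Sum.elim_inl, Sum.elim_inr, SimpleGraph.compl_adj]
      constructor
      · intro _
        exact ⟨by simp, by simp⟩
      · intro _
        exact (h b a).symm
    · simp only [Function.Embedding.coeFn_mk, Sum.elim_inr, SimpleGraph.compl_adj]
      rw [φ₂.map_adj_iff]
      constructor
      · intro h1
        refine ⟨fun h2 => h1.ne (Sum.inr_injective h2), ?_⟩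
        simp [h1]
      · rintro ⟨h1, h2⟩
        by_contra h3
        exact h2 (by simpa using ⟨fun h4 => h1 (congrArg Sum.inr h4), h3⟩)

theorem poly_join {t : ℕ} {W₁ W₂ : Type} {F₁ : SimpleGraph W₁} {F₂ : SimpleGraph W₂}
    (h₁ : Poly t F₁) (h₂ : Poly t F₂) : Poly t (F₁ᶜ ⊕g F₂ᶜ)ᶜ :=
  poly_join_aux h₁ h₂ (fun _ G φ₁ φ₂ h => join_embedding G φ₁ φ₂ h)

/-- gluing two embeddings along a bipartition -/
lemma glue {V W : Type} {F : SimpleGraph W} {G : SimpleGraph V} (A : Set W)
    (φ₁ : F.induce A ↪g G) (φ₂ : F.induce Aᶜ ↪g G)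
    (hne : ∀ a b, φ₁ a ≠ φ₂ b) (h : ∀ a b, G.Adj (φ₁ a) (φ₂ b) ↔ F.Adj a.1 b.1) :
    Nonempty (F ↪g G) := by
  refine ⟨⟨⟨fun x => if hx : x ∈ A then φ₁ ⟨x, hx⟩ else φ₂ ⟨x, hx⟩, ?_⟩, ?_⟩⟩
  · intro x y hxy
    simp only at hxy
    split_ifs at hxy with h1 h2 h2
    · exact congrArg Subtype.val (φ₁.injective hxy)
    · exact absurd hxy (hne _ _)
    · exact absurd hxy.symm (hne _ _)
    · exact congrArg Subtype.val (φ₂.injective hxy)
  · intro x y
    simp only [Function.Embedding.coeFn_mk]
    by_cases h1 : x ∈ A <;> by_cases h2 : y ∈ A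
    · rw [dif_pos h1, dif_pos h2]
      exact φ₁.map_adj_iff
    · rw [dif_pos h1, dif_neg h2]
      exact h ⟨x, h1⟩ ⟨y, h2⟩
    · rw [dif_neg h1, dif_pos h2, G.adj_comm, F.adj_comm]
      exact h ⟨y, h2⟩ ⟨x, h1⟩
    · rw [dif_neg h1, dif_neg h2]
      exact φ₂.map_adj_iff

/-- all graphs without an induced path on four vertices -/
theorem poly_cograph (t : ℕ) : ∀ (n : ℕ) (W : Type) [Fintype W] (F : SimpleGraph W),
    Fintype.card W ≤ n → IsEmpty (SimpleGraph.pathGraph 4 ↪g F) → Poly t F := by
  intro n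
  induction n with
  | zero =>
    intro W _ F hcard h1
    have hW : IsEmpty W := Fintype.card_eq_zero_iff.mp (Nat.le_zero.mp hcard)
    refine ⟨0, 0, fun V _ G _ hF => ?_⟩
    exact absurd hF (fun h => h.false
      ⟨⟨fun x => hW.elim x, fun x => hW.elim x⟩, fun {x} => hW.elim x⟩)
  | succ n ih =>
    intro W _ F hcard h4
    have hsub : ∀ (A : Set W), (∃ x, x ∉ A) → Poly t (F.induce A) := by
      intro A hA
      obtain ⟨x, hx⟩ := hA
      apply ih A (F.induce A)
      · have h1 : Fintype.card A < Fintype.card W := by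
          apply Fintype.card_lt_of_injective_of_notMem (fun a : A => a.1)
            Subtype.val_injective (b := x)
          rintro ⟨a, ha⟩
          simp only at ha
          exact hx (ha ▸ a.2)
        omega
      · exact ⟨fun φ => h4.false ((SimpleGraph.Embedding.induce A).comp φ)⟩
    by_cases hc2 : 2 ≤ (Finset.univ : Finset W).card
    · rcases seinsche F (noP4_of_free F h4) Finset.univ hc2 with h | h
      · obtain ⟨A, B, hAB, hd, hA, hB, hanti⟩ := h
        have hB' : ∀ x, x ∉ (A : Set W) → x ∈ B := by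
          intro x hx
          have h1 : x ∈ A ∪ B := by
            rw [← hAB]
            exact Finset.mem_univ x
          exact (Finset.mem_union.1 h1).resolve_left hx
        refine poly_union_aux (hsub (A : Set W) ?_) (hsub (A : Set W)ᶜ ?_) ?_
        · obtain ⟨b, hb⟩ := hB
          exact ⟨b, fun h => (Finset.disjoint_left.1 hd) h hb⟩
        · obtain ⟨a, ha⟩ := hA
          exact ⟨a, fun h => h ha⟩
        intro V G φ₁ φ₂ hφ
        exact glue (A : Set W) φ₁ φ₂ (fun a b => (hφ a b).1) (fun a b =>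
          ⟨fun h => absurd h (hφ a b).2, fun h => absurd h (hanti a.1 a.2 b.1 (hB' b.1 b.2))⟩)
      · obtain ⟨A, B, hAB, hd, hA, hB, hanti⟩ := h
        have hB' : ∀ x, x ∉ (A : Set W) → x ∈ B := by
          intro x hx
          have h1 : x ∈ A ∪ B := by
            rw [← hAB]
            exact Finset.mem_univ x
          exact (Finset.mem_union.1 h1).resolve_left hx
        have hcompl : ∀ a ∈ A, ∀ b ∈ B, F.Adj a b := by
          intro a ha b hb
          by_contra hab
          refine hanti a ha b hb ((SimpleGraph.compl_adj _ _ _).2 ⟨?_, hab⟩)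
          rintro rfl
          exact (Finset.disjoint_left.1 hd) ha hb
        refine poly_join_aux (hsub (A : Set W) ?_) (hsub (A : Set W)ᶜ ?_) ?_
        · obtain ⟨b, hb⟩ := hB
          exact ⟨b, fun h => (Finset.disjoint_left.1 hd) h hb⟩
        · obtain ⟨a, ha⟩ := hA
          exact ⟨a, fun h => h ha⟩
        intro V G φ₁ φ₂ hφ
        exact glue (A : Set W) φ₁ φ₂ (fun a b => (hφ a b).ne) (fun a b =>
          ⟨fun _ => hcompl a.1 a.2 b.1 (hB' b.1 b.2), fun _ => hφ a b⟩)
    · -- at most one vertex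
      refine ⟨0, 0, fun V _ G _ hF => ?_⟩
      have hV : IsEmpty V := by
        by_contra hV
        rw [not_isEmpty_iff] at hV
        obtain ⟨v⟩ := hV
        have hsubs : ∀ x y : W, x = y := by
          intro x y
          by_contra hxy
          apply hc2
          calc 2 = ({x, y} : Finset W).card := (Finset.card_pair hxy).symm
            _ ≤ _ := Finset.card_le_card (Finset.subset_univ _)
        refine hF.false ⟨⟨fun _ => v, fun x y _ => hsubs x y⟩, ?_⟩
        intro x y
        rw [hsubs x y]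
        simp
      exact ⟨fun v => hV.elim v, fun {v} => hV.elim v⟩

end Pool.Agent.COG
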