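import Mathlib
import Pool.Agent.QPT.Core
import Pool.Agent.QPT.NumB

/-! Definitions for project COG: graphs without an induced path on `t` vertices and with large chromatic
number contain pairs of sets of large chromatic number which are nearly complete to each other.

`om`, `chi`, `Tail`, `Reach`, `Conn`, `Extr` are in Helper20/Dense/{Basic,Chi}, `bd`, `cmp`, `Xt`, `Full` in
QPB/Defs, `T0`, `GP` in QPT/Defs. -/

open Finset
open scoped Classical
open Pool.Agent.Helper20.Dense Pool.Agent.QPB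

namespace Pool.Agent.COG

variable {V : Type*} [Fintype V] [DecidableEq V] (G : SimpleGraph V)

/-- the parameters: `t` (length of the path), `K` (near completeness), `M` (reciprocal of the density of
roots), `Q` (smallness), `al` -/
structure Prm (t : ℕ) (K M Q al : ℝ) : Prop where
  ht : 4 ≤ t
  hK : 2 ≤ K
  hM : 1 ≤ M
  hQ : 2 * K * M ≤ Q
  al_pos : 0 < al
  al_le : 4 * (t : ℝ) * al ≤ 1

/-- `v` is nearly complete to `T` -/
def NCt (K : ℝ) (T : Finset V) (v : V) : Prop :=
  K * (chi G (T.filter (fun x => ¬ G.Adj v x)) : ℝ) ≤ (chi G T : ℝ)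

/-- the vertices `u` of `D` which are not adjacent to `v` and are not separated from `v` in `D` by a set of
small chromatic number -/
noncomputable def E0 (Q : ℝ) (D : Finset V) (v : V) : Finset V :=
  D.filter (fun u => u ≠ v ∧ ¬ G.Adj v u ∧ ∀ S ⊆ D, v ∉ S → u ∉ S →
    Q * (chi G S : ℝ) ≤ (chi G D : ℝ) → u ∈ cmp G (D \ S) v)

/-- rooted frames: `R` is a connected region containing the root `v`, the vertices of `T` are far from
`v`, and no set of small chromatic number separates a vertex of `T` from `v` in `R` -/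
structure RFrame (M Q : ℝ) (D R T : Finset V) (v : V) (k : ℝ) : Prop where
  RD : R ⊆ D
  TD : T ⊆ D
  vR : v ∈ R
  conn : Conn G R
  far : ∀ x ∈ T, x ≠ v ∧ ¬ G.Adj v x
  big : (chi G D : ℝ) ≤ M * (chi G T : ℝ)
  out : Q * (chi G (T \ R) : ℝ) ≤ k * (chi G D : ℝ)
  uns : ∀ S ⊆ R, v ∉ S → Q * (chi G S : ℝ) ≤ (1 - k) * (chi G D : ℝ) →
    ∀ u ∈ (T ∩ R) \ S, u ∈ cmp G (R \ S) v

/-- clean regions: no vertex of `R` is nearly complete to `T` -/
def RClean (K : ℝ) (R T : Finset V) : Prop := ∀ x ∈ R, ¬ NCt G K T x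

/-- the claim for tails of length `i` and frames in `D` -/
def ClaimAt (i : ℕ) (K M Q al : ℝ) (D : Finset V) : Prop :=
  ∀ (R T : Finset V) (v : V) (k : ℝ) (b : V), RFrame G M Q D R T v k →
    k ≤ (2 * (i : ℝ) + 2) * al → RClean G K R T → b ∉ R → (∃ r ∈ R, G.Adj b r) →
    Tail G i b R → NCt G K T b

/-- only few vertices of `D0` are nearly complete to a large subset of `D` -/
def Thn (K M Q al : ℝ) (D0 D : Finset V) : Prop :=
  ∀ T ⊆ D, (chi G D : ℝ) ≤ M * (chi G T : ℝ) →
    Q * (chi G (D0.filter (fun x => NCt G K T x)) : ℝ) ≤ al * (chi G D : ℝ)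

/-- `D` contains no nearly complete pair: `x` is the exponent of near completeness, `c` the exponent of the
density -/
def NoNC (W x c : ℕ) (D : Finset V) : Prop :=
  ∀ A ⊆ D, (chi G D : ℝ) ≤ (W : ℝ) ^ c * (chi G A : ℝ) →
    (W : ℝ) ^ c * (chi G (D.filter (fun b => NCt G ((W : ℝ) ^ x) A b)) : ℝ) < (chi G D : ℝ)

/-- the statement of the induction on `k` -/
def GG (t x k : ℕ) : Prop :=
  ∃ c a : ℕ, ∀ (V : Type) [Fintype V] [DecidableEq V] (G : SimpleGraph V),
    IsEmpty (SimpleGraph.pathGraph t ↪g G) → ∀ W : ℕ, 2 ≤ W → om G Finset.univ ≤ W →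
    ∀ D : Finset V, (W : ℝ) ^ c ≤ (chi G D : ℝ) → NoNC G W x c D → ∀ E : V → V → Prop,
    (∀ z ∈ D, (W : ℝ) ^ a * (chi G (D.filter (fun y => E y z)) : ℝ) ≤ (chi G D : ℝ)) →
    ∃ p : ℕ → V, QPT.GP G E k p ∧ ∀ i < k, p i ∈ D

end Pool.Agent.COG
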