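import Pool.Agent.COG.Cog

/-! Disjoint nearly complete pairs, and the statement with the chromatic number of Mathlib. -/

open Finset
open scoped Classical
open Pool.Agent.Helper20.Dense Pool.Agent.QPB

namespace Pool.Agent.COG

lemma half {V : Type} [Fintype V] [DecidableEq V] (G : SimpleGraph V) {A : Finset V}
    (h : 2 ≤ chi G A) : ∃ Y ⊆ A, chi G A ≤ 3 * chi G Y ∧ chi G A ≤ 3 * chi G (A \ Y) := by
  obtain ⟨Y, hYA, hY, hmin⟩ := exists_minimal G (show (chi G A + 1) / 2 ≤ chi G A by omega)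
  have hYle : chi G Y ≤ (chi G A + 1) / 2 := by
    obtain ⟨y, hy⟩ := nonempty_of_chi_pos G (show 0 < chi G Y by omega)
    have h1 := hmin (Y.erase y) (Finset.erase_ssubset hy)
    have h2 : Y ⊆ Y.erase y ∪ {y} := by
      intro z hz
      rw [Finset.mem_union, Finset.mem_erase, Finset.mem_singleton]
      by_cases h3 : z = y
      · exact Or.inr h3
      · exact Or.inl ⟨h3, hz⟩
    have h3 := (chi_mono G h2).trans (chi_union G _ _)
    have h4 := chi_singleton_le G y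
    omega
  have h5 : A ⊆ Y ∪ (A \ Y) := by
    intro z hz
    rw [Finset.mem_union, Finset.mem_sdiff]
    by_cases h3 : z ∈ Y
    · exact Or.inl h3
    · exact Or.inr ⟨hz, h3⟩
  have h6 := (chi_mono G h5).trans (chi_union G _ _)
  exact ⟨Y, hYA, by omega, by omega⟩

/-- disjoint nearly complete pairs -/
theorem pair_disj (t x : ℕ) : ∃ c : ℕ, ∀ (V : Type) [Fintype V] [DecidableEq V] (G : SimpleGraph V),
    IsEmpty (SimpleGraph.pathGraph t ↪g G) → ∀ W : ℕ, 2 ≤ W → om G Finset.univ ≤ W →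
    ∀ D : Finset V, W ^ c ≤ chi G D → ∃ A B : Finset V, A ⊆ D ∧ B ⊆ D ∧ Disjoint A B ∧
      chi G D ≤ W ^ c * chi G A ∧ chi G D ≤ W ^ c * chi G B ∧
      ∀ b ∈ B, W ^ x * chi G (A.filter (fun a => ¬ G.Adj b a)) ≤ chi G A := by
  obtain ⟨c, hc⟩ := pair t (x + 2)
  refine ⟨c + 2, ?_⟩
  intro V _ _ G hfree W hW hom D hD
  have hW4 : 4 ≤ W ^ 2 := by nlinarith
  have hWc : 0 < W ^ c := by positivity
  have hsz : (W : ℝ) ^ c ≤ (chi G D : ℝ) := by
    have h1 : W ^ c ≤ chi G D := le_trans (Nat.pow_le_pow_right (by omega) (by omega)) hD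
    exact_mod_cast h1
  obtain ⟨A, B, hAD, hBD, hA, hB, hAB⟩ := hc V G hfree W hW hom D hsz
  have hA' : chi G D ≤ W ^ c * chi G A := by exact_mod_cast hA
  have hB' : chi G D ≤ W ^ c * chi G B := by exact_mod_cast hB
  have hAB' : ∀ b ∈ B, W ^ (x + 2) * chi G (A.filter (fun a => ¬ G.Adj b a)) ≤ chi G A := by
    intro b hb
    have h1 := hAB b hb
    unfold NCt at h1
    exact_mod_cast h1
  have hA2 : 2 ≤ chi G A := by
    have h1 : W ^ c * W ^ 2 ≤ W ^ c * chi G A := by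
      rw [← pow_add]
      exact hD.trans hA'
    have h2 := Nat.le_of_mul_le_mul_left h1 hWc
    omega
  obtain ⟨Y, hYA, hY1, hY2⟩ := half G hA2
  have key : ∀ A₁ ⊆ A, chi G A ≤ 3 * chi G A₁ → ∀ B₁ ⊆ B, chi G B ≤ 2 * chi G B₁ →
      Disjoint A₁ B₁ → ∃ A B : Finset V, A ⊆ D ∧ B ⊆ D ∧ Disjoint A B ∧
      chi G D ≤ W ^ (c + 2) * chi G A ∧ chi G D ≤ W ^ (c + 2) * chi G B ∧
      ∀ b ∈ B, W ^ x * chi G (A.filter (fun a => ¬ G.Adj b a)) ≤ chi G A := by
    intro A₁ hA₁ hcA B₁ hB₁ hcB hd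
    refine ⟨A₁, B₁, hA₁.trans hAD, hB₁.trans hBD, hd, ?_, ?_, ?_⟩
    · calc chi G D ≤ W ^ c * chi G A := hA'
        _ ≤ W ^ c * (3 * chi G A₁) := Nat.mul_le_mul_left _ hcA
        _ ≤ W ^ c * (W ^ 2 * chi G A₁) :=
          Nat.mul_le_mul_left _ (Nat.mul_le_mul_right _ (by omega))
        _ = _ := by ring
    · calc chi G D ≤ W ^ c * chi G B := hB'
        _ ≤ W ^ c * (2 * chi G B₁) := Nat.mul_le_mul_left _ hcB
        _ ≤ W ^ c * (W ^ 2 * chi G B₁) :=
          Nat.mul_le_mul_left _ (Nat.mul_le_mul_right _ (by omega))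
        _ = _ := by ring
    · intro b hb
      have h1 := hAB' b (hB₁ hb)
      have h2 : chi G (A₁.filter (fun a => ¬ G.Adj b a)) ≤
          chi G (A.filter (fun a => ¬ G.Adj b a)) :=
        chi_mono G (Finset.filter_subset_filter _ hA₁)
      have h3 : W ^ 2 * (W ^ x * chi G (A₁.filter (fun a => ¬ G.Adj b a))) ≤
          W ^ 2 * chi G A₁ := by
        calc W ^ 2 * (W ^ x * chi G (A₁.filter (fun a => ¬ G.Adj b a)))
            = W ^ (x + 2) * chi G (A₁.filter (fun a => ¬ G.Adj b a)) := by ring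
          _ ≤ W ^ (x + 2) * chi G (A.filter (fun a => ¬ G.Adj b a)) :=
            Nat.mul_le_mul_left _ h2
          _ ≤ chi G A := h1
          _ ≤ 3 * chi G A₁ := hcA
          _ ≤ W ^ 2 * chi G A₁ := Nat.mul_le_mul_right _ (by omega)
      exact Nat.le_of_mul_le_mul_left h3 (by omega)
  have hsplit : B ⊆ (B \ Y) ∪ (B ∩ Y) := by
    intro z hz
    rw [Finset.mem_union, Finset.mem_sdiff, Finset.mem_inter]
    by_cases h3 : z ∈ Y
    · exact Or.inr ⟨hz, h3⟩
    · exact Or.inl ⟨hz, h3⟩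
  have hs := (chi_mono G hsplit).trans (chi_union G _ _)
  by_cases hcase : chi G B ≤ 2 * chi G (B \ Y)
  · exact key Y hYA hY1 (B \ Y) Finset.sdiff_subset hcase Finset.disjoint_sdiff
  · refine key (A \ Y) Finset.sdiff_subset hY2 (B ∩ Y) Finset.inter_subset_left (by omega) ?_
    rw [Finset.disjoint_left]
    intro z hz hz'
    exact (Finset.mem_sdiff.mp hz).2 (Finset.mem_inter.mp hz').2

lemma chi_eq {V : Type} [Fintype V] [DecidableEq V] (G : SimpleGraph V) (X : Finset V) :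
    (G.induce (X : Set V)).chromaticNumber = ((chi G X : ℕ) : ℕ∞) := by
  have h : ∀ n : ℕ, (G.induce (X : Set V)).chromaticNumber ≤ n ↔ chi G X ≤ n := by
    intro n
    rw [SimpleGraph.chromaticNumber_le_iff_colorable, chi_le_iff, isCol_iff]
  apply le_antisymm
  · exact (h _).mpr le_rfl
  · have h1 : (G.induce (X : Set V)).chromaticNumber ≠ ⊤ := by
      intro h2
      have h3 := (h (chi G X)).mpr le_rfl
      rw [h2] at h3
      exact absurd h3 (by simp)
    obtain ⟨n, hn⟩ := ENat.ne_top_iff_exists.mp h1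
    rw [← hn]
    exact_mod_cast (h n).mp hn.symm.le

lemma chi_univ_eq {V : Type} [Fintype V] [DecidableEq V] (G : SimpleGraph V) :
    G.chromaticNumber = ((chi G Finset.univ : ℕ) : ℕ∞) := by
  have h : ∀ n : ℕ, G.chromaticNumber ≤ n ↔ chi G Finset.univ ≤ n := by
    intro n
    rw [SimpleGraph.chromaticNumber_le_iff_colorable, chi_le_iff, isCol_univ_iff]
  apply le_antisymm
  · exact (h _).mpr le_rfl
  · have h1 : G.chromaticNumber ≠ ⊤ := by
      intro h2
      have h3 := (h (chi G Finset.univ)).mpr le_rfl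
      rw [h2] at h3
      exact absurd h3 (by simp)
    obtain ⟨n, hn⟩ := ENat.ne_top_iff_exists.mp h1
    rw [← hn]
    exact_mod_cast (h n).mp hn.symm.le

/-- nearly complete pairs, with the chromatic number of Mathlib -/
theorem pair_chrom (t k : ℕ) : ∃ c : ℕ, ∀ (V : Type) [Fintype V] (G : SimpleGraph V),
    IsEmpty (SimpleGraph.pathGraph t ↪g G) → ∀ W : ℕ, 2 ≤ W → G.cliqueNum ≤ W →
    ((W ^ c : ℕ) : ℕ∞) ≤ G.chromaticNumber → ∃ A B : Set V, Disjoint A B ∧
      G.chromaticNumber ≤ ((W ^ c : ℕ) : ℕ∞) * (G.induce A).chromaticNumber ∧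
      G.chromaticNumber ≤ ((W ^ c : ℕ) : ℕ∞) * (G.induce B).chromaticNumber ∧
      ∀ b ∈ B, ((W ^ k : ℕ) : ℕ∞) * (G.induce {a | a ∈ A ∧ ¬ G.Adj b a}).chromaticNumber ≤
        (G.induce A).chromaticNumber := by
  obtain ⟨c, hc⟩ := pair_disj t k
  refine ⟨c, ?_⟩
  intro V _ G hfree W hW hom hχ
  rw [chi_univ_eq] at hχ
  have hχ' : W ^ c ≤ chi G Finset.univ := by exact_mod_cast hχ
  obtain ⟨A, B, _, _, hd, hA, hB, hAB⟩ := hc V G hfree W hW ((om_univ_le G).trans hom)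
    Finset.univ hχ'
  refine ⟨(A : Set V), (B : Set V), by exact_mod_cast hd, ?_, ?_, ?_⟩
  · rw [chi_univ_eq, chi_eq]
    exact_mod_cast hA
  · rw [chi_univ_eq, chi_eq]
    exact_mod_cast hB
  · intro b hb
    have h1 := hAB b (by exact_mod_cast hb)
    have h2 : {a | a ∈ (A : Set V) ∧ ¬ G.Adj b a} =
        ((A.filter (fun a => ¬ G.Adj b a) : Finset V) : Set V) := by
      ext a
      simp
    rw [h2, chi_eq, chi_eq]
    exact_mod_cast h1

end Pool.Agent.COG
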