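import Pool.Agent.COG.Bad

/-! Extension of a path in the core (adapted from QPT/Ext). -/

open Finset
open scoped Classical
open Pool.Agent.Helper20.Dense Pool.Agent.QPB

namespace Pool.Agent.COG

variable {V : Type*} [Fintype V] [DecidableEq V] (G : SimpleGraph V)

private theorem step_out {X : Finset V} {a b : V} (P : V → Prop) (h : Reach G X a b) (ha : P a)
    (hb : ¬ P b) : ∃ c d, Reach G X a c ∧ Reach G X a d ∧ G.Adj c d ∧ P c ∧ ¬ P d := by
  induction h with
  | refl => exact absurd ha hb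
  | @tail c d hac hcd ih =>
    by_cases hc : P c
    · exact ⟨c, d, hac, hac.tail hcd, hcd.1, hc, hb⟩
    · exact ih hc

theorem ext {t W m : ℕ} (ht : 1 ≤ t) (hW : 2 ≤ W) (hm : 2 ≤ m) {Q : ℝ} {D : Finset V}
    (hD : Xt G 1 D) (hom : om G D ≤ W) (hsz : 2 * (W : ℝ) < (chi G D : ℝ))
    (hQ : 8 * (t : ℝ) * (W : ℝ) * (m : ℝ) ≤ Q) {E : V → V → Prop}
    (hE : ∀ x ∈ D, 8 * (t : ℝ) * (W : ℝ) * (m : ℝ) *
      (chi G (D.filter (fun z => E z x)) : ℝ) ≤ (chi G D : ℝ)) {x : ℕ → V}
    (hx : QPT.GP G (fun z y => E z y ∨ z ∈ E0 G Q D y) m x)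
    (hxT : ∀ i < m, x i ∈ QPT.T0 G W (4 * (t : ℝ) * (W : ℝ)) D) :
    ∃ y : ℕ → V, QPT.GP G E (m + 1) y ∧ ∀ i < m + 1, y i ∈ D := by
  classical
  have htr : (1 : ℝ) ≤ t := by exact_mod_cast ht
  have hWr : (2 : ℝ) ≤ W := by exact_mod_cast hW
  have hmr : (2 : ℝ) ≤ m := by exact_mod_cast hm
  have hxD : ∀ i < m, x i ∈ D := fun i hi => (Finset.mem_filter.mp (hxT i hi)).1
  have h0m : 0 < m := by omega
  have h1m : 1 < m := by omega
  have hadj01 : G.Adj (x 0) (x 1) := (hx 0 1 (by omega) h1m).2.1.mpr rfl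
  -- the separators
  have hsep : ∀ i, ∃ S : Finset V, 2 ≤ i → i < m → S ⊆ D ∧ x i ∉ S ∧ x 0 ∉ S ∧
      Q * (chi G S : ℝ) ≤ (chi G D : ℝ) ∧ x 0 ∉ cmp G (D \ S) (x i) := by
    intro i
    by_cases hi : 2 ≤ i ∧ i < m
    · obtain ⟨h1, h3, h4⟩ := hx 0 i (by omega) hi.2
      have h5 := h4 (by omega)
      have h6 : x 0 ∉ E0 G Q D (x i) := fun h => h5 (Or.inr h)
      by_contra hcon
      push Not at hcon
      apply h6
      refine Finset.mem_filter.mpr ⟨hxD 0 h0m, h1, ?_, ?_⟩
      · intro h7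
        have := h3.mp h7.symm
        omega
      · intro S hS h7 h8 h9
        by_contra h10
        obtain ⟨_, _, h11⟩ := hcon S
        exact h10 (h11 hS h7 h8 h9)
    · exact ⟨∅, fun h1 h2 => absurd ⟨h1, h2⟩ hi⟩
  choose Sf hSf using hsep
  set I : ℕ → Finset V := fun i => D.filter (fun z => E z (x i) ∧ ¬ G.Adj z (x i) ∧ z ≠ x i)
    with hI
  set S : Finset V := (Finset.Ico 2 m).biUnion Sf ∪ (Finset.Ico 1 m).biUnion I with hSdef
  have hSD : S ⊆ D := by
    apply Finset.union_subset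
    · apply Finset.biUnion_subset.mpr
      intro i hi
      rw [Finset.mem_Ico] at hi
      exact (hSf i hi.1 hi.2).1
    · apply Finset.biUnion_subset.mpr
      intro i _
      exact Finset.filter_subset _ _
  have hSfS : ∀ i, 2 ≤ i → i < m → Sf i ⊆ S := by
    intro i h1 h3
    exact (Finset.subset_biUnion_of_mem Sf (Finset.mem_Ico.mpr ⟨h1, h3⟩)).trans
      Finset.subset_union_left
  have hIS : ∀ i, 1 ≤ i → i < m → I i ⊆ S := by
    intro i h1 h3
    exact (Finset.subset_biUnion_of_mem I (Finset.mem_Ico.mpr ⟨h1, h3⟩)).trans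
      Finset.subset_union_right
  have hx0S : x 0 ∉ S := by
    intro h
    rw [hSdef, Finset.mem_union, Finset.mem_biUnion, Finset.mem_biUnion] at h
    rcases h with ⟨i, hi, h⟩ | ⟨i, hi, h⟩
    · rw [Finset.mem_Ico] at hi
      exact (hSf i hi.1 hi.2).2.2.1 h
    · rw [Finset.mem_Ico] at hi
      have h3 := (Finset.mem_filter.mp h).2
      by_cases hi1 : i = 1
      · rw [hi1] at h3
        exact h3.2.1 hadj01
      · exact (hx 0 i (by omega) hi.2).2.2 (by omega) (Or.inl h3.1)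
  -- the chromatic number of S
  have hc0 : (0 : ℝ) ≤ (chi G D : ℝ) := Nat.cast_nonneg _
  have hK : (0 : ℝ) < 8 * (t : ℝ) * (W : ℝ) * (m : ℝ) := by positivity
  have hchiSf : ∀ i ∈ Finset.Ico 2 m,
      (chi G (Sf i) : ℝ) ≤ (chi G D : ℝ) / (8 * (t : ℝ) * (W : ℝ) * (m : ℝ)) := by
    intro i hi
    rw [Finset.mem_Ico] at hi
    obtain ⟨h1, _, _, h4, _⟩ := hSf i hi.1 hi.2
    rw [le_div_iff₀ hK]
    have h5 : (0 : ℝ) ≤ (chi G (Sf i) : ℝ) := Nat.cast_nonneg _
    have h6 := mul_le_mul_of_nonneg_left hQ h5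
    linarith
  have hchiI : ∀ i ∈ Finset.Ico 1 m,
      (chi G (I i) : ℝ) ≤ (chi G D : ℝ) / (8 * (t : ℝ) * (W : ℝ) * (m : ℝ)) := by
    intro i hi
    rw [Finset.mem_Ico] at hi
    have h1 : chi G (I i) ≤ chi G (D.filter (fun z => E z (x i))) := by
      apply chi_mono
      intro z hz
      have h3 := Finset.mem_filter.mp hz
      exact Finset.mem_filter.mpr ⟨h3.1, h3.2.1⟩
    have h3 : (chi G (I i) : ℝ) ≤ (chi G (D.filter (fun z => E z (x i))) : ℝ) := by
      exact_mod_cast h1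
    have h4 := hE (x i) (hxD i hi.2)
    rw [le_div_iff₀ hK]
    nlinarith
  have hchiS : 4 * (t : ℝ) * (W : ℝ) * (chi G S : ℝ) ≤ (chi G D : ℝ) := by
    have h1 : (chi G S : ℝ) ≤ (∑ i ∈ Finset.Ico 2 m, (chi G (Sf i) : ℝ)) +
        ∑ i ∈ Finset.Ico 1 m, (chi G (I i) : ℝ) := by
      have h3 := chi_union G ((Finset.Ico 2 m).biUnion Sf) ((Finset.Ico 1 m).biUnion I)
      have h4 := chi_biUnion_le G (Finset.Ico 2 m) Sf
      have h5 := chi_biUnion_le G (Finset.Ico 1 m) I
      exact_mod_cast h3.trans (Nat.add_le_add h4 h5)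
    set q : ℝ := (chi G D : ℝ) / (8 * (t : ℝ) * (W : ℝ) * (m : ℝ)) with hq
    have hq0 : 0 ≤ q := div_nonneg hc0 hK.le
    have h3 := Finset.sum_le_card_nsmul (Finset.Ico 2 m) (fun i => (chi G (Sf i) : ℝ)) q hchiSf
    have h4 := Finset.sum_le_card_nsmul (Finset.Ico 1 m) (fun i => (chi G (I i) : ℝ)) q hchiI
    rw [Nat.card_Ico, nsmul_eq_mul] at h3 h4
    have h5 : ((m - 2 : ℕ) : ℝ) ≤ m := by exact_mod_cast Nat.sub_le _ _
    have h6 : ((m - 1 : ℕ) : ℝ) ≤ m := by exact_mod_cast Nat.sub_le _ _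
    have h7 : (chi G S : ℝ) ≤ 2 * m * q := by
      have h8 := mul_le_mul_of_nonneg_right h5 hq0
      have h9 := mul_le_mul_of_nonneg_right h6 hq0
      linarith
    calc 4 * (t : ℝ) * (W : ℝ) * (chi G S : ℝ) ≤ 4 * (t : ℝ) * (W : ℝ) * (2 * m * q) :=
          mul_le_mul_of_nonneg_left h7 (by positivity)
      _ = (8 * (t : ℝ) * (W : ℝ) * (m : ℝ)) * q := by ring
      _ = (chi G D : ℝ) := by
          rw [hq]
          exact mul_div_cancel₀ _ hK.ne'
  set F : Finset V := cmp G (D \ S) (x 0) with hF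
  have hfull : Full G W D F := (Finset.mem_filter.mp (hxT 0 h0m)).2 S hSD hx0S hchiS
  have hFD : F ⊆ D := (cmp_subset G _ _).trans Finset.sdiff_subset
  have hFS : ∀ z ∈ F, z ∉ S := fun z hz => (Finset.mem_sdiff.mp (cmp_subset G _ _ hz)).2
  have hx0DS : x 0 ∈ D \ S := Finset.mem_sdiff.mpr ⟨hxD 0 h0m, hx0S⟩
  -- (1)
  have hone : ∀ i, 2 ≤ i → i < m → ∀ z ∈ F, z ≠ x i ∧ ¬ G.Adj z (x i) := by
    intro i hi him z hz
    obtain ⟨h1, h3, h4, _, h5⟩ := hSf i hi him
    have hsub : D \ S ⊆ D \ Sf i := Finset.sdiff_subset_sdiff (Finset.Subset.refl _)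
      (hSfS i hi him)
    have h6 : Reach G (D \ Sf i) (x 0) z := ((Finset.mem_filter.mp hz).2).mono G hsub
    have h7 : x 0 ∈ D \ Sf i := Finset.mem_sdiff.mpr ⟨hxD 0 h0m, h4⟩
    have h8 : x i ∈ D \ Sf i := Finset.mem_sdiff.mpr ⟨hxD i him, h3⟩
    have h9 : ¬ Reach G (D \ Sf i) (x 0) (x i) := fun h =>
      h5 (Finset.mem_filter.mpr ⟨h7, reach_symm G h7 h⟩)
    constructor
    · intro h
      rw [h] at h6
      exact h9 h6
    · intro h
      exact h9 (h6.tail ⟨h, h8⟩)
  -- (2)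
  have htwo : ∃ z ∈ F, ¬ (z = x 1 ∨ G.Adj (x 1) z) := by
    by_contra hcon
    push Not at hcon
    have h1 : om G (F.erase (x 1)) + om G {x 1} ≤ om G D := by
      apply om_add_le G ((Finset.erase_subset _ _).trans hFD)
      · intro z hz
        rw [Finset.mem_singleton] at hz
        rw [hz]
        exact hxD 1 h1m
      · intro a ha b hb
        rw [Finset.mem_singleton] at hb
        rw [Finset.mem_erase] at ha
        rw [hb]
        rcases hcon a ha.2 with h | h
        · exact absurd h ha.1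
        · exact h.symm
    rw [om_singleton] at h1
    have h3 := chi_drop G le_rfl hD ((Finset.erase_subset _ _).trans hFD) hom
      (show om G (F.erase (x 1)) < om G D by omega)
    have h4 : (chi G F : ℝ) ≤ (chi G (F.erase (x 1)) : ℝ) + 1 := by
      have h5 : F ⊆ F.erase (x 1) ∪ {x 1} := by
        intro z hz
        rw [Finset.mem_union, Finset.mem_erase, Finset.mem_singleton]
        by_cases h : z = x 1
        · exact Or.inr h
        · exact Or.inl ⟨h, hz⟩
      have h6 := (chi_mono G h5).trans (chi_union G _ _)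
      have h7 := chi_singleton_le G (x 1)
      exact_mod_cast h6.trans (Nat.add_le_add_left h7 _)
    have h5 : (1 - 1 / (2 * (W : ℝ))) * (chi G D : ℝ) ≤ (chi G F : ℝ) := hfull
    have h6 := hsz
    have hW0 : (0 : ℝ) < W := by linarith
    have h7 : (chi G D : ℝ) / (2 * (W : ℝ)) ≤ 1 := by
      have h8 : (1 - 1 / (2 * (W : ℝ))) * (chi G D : ℝ) =
          (1 - 1 / (W : ℝ)) * (chi G D : ℝ) + (chi G D : ℝ) / (2 * (W : ℝ)) := by
        field_simp
        ring
      rw [h8] at h5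
      linarith
    rw [div_le_one (by positivity)] at h7
    linarith
  obtain ⟨z, hzF, hz⟩ := htwo
  obtain ⟨p, q, hp, hq, hpq, hPp, hPq⟩ := step_out G (fun v => v = x 1 ∨ G.Adj (x 1) v)
    (Finset.mem_filter.mp hzF).2 (Or.inr hadj01.symm) hz
  push Not at hPq
  have hpF : p ∈ F := Finset.mem_filter.mpr ⟨reach_mem G hx0DS hp, hp⟩
  have hqF : q ∈ F := Finset.mem_filter.mpr ⟨reach_mem G hx0DS hq, hq⟩
  have hp1 : p ≠ x 1 := by
    intro h
    rw [h] at hpq
    exact hPq.2 hpq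
  have hpx1 : G.Adj p (x 1) := by
    rcases hPp with h | h
    · exact absurd h hp1
    · exact h.symm
  -- vertices of F avoid E
  have hFE : ∀ i, 1 ≤ i → i < m → ∀ z ∈ F, z ≠ x i → ¬ G.Adj z (x i) → ¬ E z (x i) := by
    intro i hi him z hz h1 h3 h4
    exact hFS z hz (hIS i hi him (Finset.mem_filter.mpr ⟨hFD hz, h4, h3, h1⟩))
  refine ⟨fun n => if n = 0 then q else if n = 1 then p else x (n - 1), ?_, ?_⟩
  · intro i j hij hjm
    by_cases hi0 : i = 0
    · subst hi0
      by_cases hj1 : j = 1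
      · subst hj1
        simp only [if_true, one_ne_zero, if_false, zero_add, iff_true, ne_eq, not_true_eq_false,
          false_imp_iff, and_true]
        exact ⟨hpq.symm.ne, hpq.symm⟩
      · have hj0 : j ≠ 0 := by omega
        simp only [if_true, hj0, hj1, if_false]
        have h1 : q ≠ x (j - 1) ∧ ¬ G.Adj q (x (j - 1)) := by
          by_cases hj2 : j = 2
          · subst hj2
            exact ⟨hPq.1, fun h => hPq.2 h.symm⟩
          · exact hone (j - 1) (by omega) (by omega) q hqF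
        refine ⟨h1.1, ⟨fun h => absurd h h1.2, fun h => absurd h.symm (by omega)⟩, fun _ => ?_⟩
        exact hFE (j - 1) (by omega) (by omega) q hqF h1.1 h1.2
    · by_cases hi1 : i = 1
      · subst hi1
        have hj0 : j ≠ 0 := by omega
        have hj1 : j ≠ 1 := by omega
        simp only [one_ne_zero, if_true, hj0, hj1, if_false]
        by_cases hj2 : j = 2
        · subst hj2
          exact ⟨hp1, ⟨fun _ => rfl, fun _ => hpx1⟩, fun h => absurd rfl h⟩
        · have h1 := hone (j - 1) (by omega) (by omega) p hpF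
          refine ⟨h1.1, ⟨fun h => absurd h h1.2, fun h => absurd h (by omega)⟩, fun _ => ?_⟩
          exact hFE (j - 1) (by omega) (by omega) p hpF h1.1 h1.2
      · have hj0 : j ≠ 0 := by omega
        have hj1 : j ≠ 1 := by omega
        simp only [hi0, hi1, hj0, hj1, if_false]
        obtain ⟨h1, h3, h4⟩ := hx (i - 1) (j - 1) (by omega) (by omega)
        refine ⟨h1, ?_, ?_⟩
        · rw [h3]
          omega
        · intro h h5
          exact h4 (by omega) (Or.inl h5)
  · intro i hi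
    by_cases hi0 : i = 0
    · subst hi0
      simp only [if_true]
      exact hFD hqF
    · by_cases hi1 : i = 1
      · subst hi1
        simp only [one_ne_zero, if_true, if_false]
        exact hFD hpF
      · simp only [hi0, hi1, if_false]
        exact hxD (i - 1) (by omega)

end Pool.Agent.COG
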