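import Pool.Agent.COG.Defs

/-! Sub-frames, frames from roots, clean frames. -/

open Finset
open scoped Classical
open Pool.Agent.Helper20.Dense Pool.Agent.QPB

namespace Pool.Agent.COG

variable {V : Type*} [Fintype V] [DecidableEq V] (G : SimpleGraph V)

theorem RFrame.sub {M Q : ℝ} (hQ : 0 ≤ Q) {D R T S : Finset V} {v : V} {k l : ℝ}
    (hF : RFrame G M Q D R T v k) (hS : S ⊆ R) (hv : v ∉ S)
    (hl : Q * (chi G S : ℝ) ≤ l * (chi G D : ℝ)) (hkl : k + l ≤ 1) :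
    RFrame G M Q D (cmp G (R \ S) v) T v (k + l) := by
  have hvRS : v ∈ R \ S := Finset.mem_sdiff.mpr ⟨hF.vR, hv⟩
  have hsub : cmp G (R \ S) v ⊆ R \ S := cmp_subset G _ _
  have hsubR : cmp G (R \ S) v ⊆ R := fun x hx => (Finset.mem_sdiff.mp (hsub hx)).1
  have hom0 : (0 : ℝ) ≤ (chi G D : ℝ) := Nat.cast_nonneg _
  have hS34 : Q * (chi G S : ℝ) ≤ (1 - k) * (chi G D : ℝ) :=
    hl.trans (mul_le_mul_of_nonneg_right (by linarith) hom0)
  refine ⟨hsubR.trans hF.RD, hF.TD, mem_cmp_self G hvRS, conn_cmp G hvRS, hF.far, hF.big, ?_, ?_⟩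
  · have h1 : T \ cmp G (R \ S) v ⊆ (T \ R) ∪ S := by
      intro u hu
      rw [Finset.mem_sdiff] at hu
      rw [Finset.mem_union, Finset.mem_sdiff]
      by_contra hcon
      push Not at hcon
      have huR : u ∈ R := hcon.1 hu.1
      exact hu.2 (hF.uns S hS hv hS34 u
        (Finset.mem_sdiff.mpr ⟨Finset.mem_inter.mpr ⟨hu.1, huR⟩, hcon.2⟩))
    have h2 : (chi G (T \ cmp G (R \ S) v) : ℝ) ≤ (chi G (T \ R) : ℝ) + (chi G S : ℝ) := by
      exact_mod_cast (chi_mono G h1).trans (chi_union G _ _)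
    have h3 := hF.out
    have h4 := mul_le_mul_of_nonneg_left h2 hQ
    linarith
  · intro S' hS' hv' hom' u hu
    rw [Finset.mem_sdiff, Finset.mem_inter] at hu
    have hS'R : S' ⊆ R := hS'.trans hsubR
    have h1 : Q * (chi G (S ∪ S') : ℝ) ≤ (1 - k) * (chi G D : ℝ) := by
      have h2 : (chi G (S ∪ S') : ℝ) ≤ (chi G S : ℝ) + (chi G S' : ℝ) := by
        exact_mod_cast chi_union G S S'
      have h4 := mul_le_mul_of_nonneg_left h2 hQ
      linarith
    have huS : u ∉ S := (Finset.mem_sdiff.mp (hsub hu.1.2)).2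
    have h3 := hF.uns (S ∪ S') (Finset.union_subset hS hS'R)
      (by rw [Finset.mem_union]; exact fun h => h.elim hv hv') h1 u
      (Finset.mem_sdiff.mpr ⟨Finset.mem_inter.mpr ⟨hu.1.1, hsubR hu.1.2⟩, by
        rw [Finset.mem_union]
        exact fun h => h.elim huS hu.2⟩)
    have h4 : Reach G (R \ (S ∪ S')) v u := (Finset.mem_filter.mp h3).2
    have hgen : ∀ w, Reach G (R \ (S ∪ S')) v w →
        Reach G (cmp G (R \ S) v \ S') v w ∧ w ∈ cmp G (R \ S) v := by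
      intro w hw
      induction hw with
      | refl => exact ⟨Relation.ReflTransGen.refl, mem_cmp_self G hvRS⟩
      | @tail c d _ hcd ih =>
        obtain ⟨hdR, hdS⟩ := Finset.mem_sdiff.mp hcd.2
        rw [Finset.mem_union, not_or] at hdS
        have hdRS : d ∈ R \ S := Finset.mem_sdiff.mpr ⟨hdR, hdS.1⟩
        have hd : d ∈ cmp G (R \ S) v :=
          Finset.mem_filter.mpr ⟨hdRS, ((Finset.mem_filter.mp ih.2).2).tail ⟨hcd.1, hdRS⟩⟩
        exact ⟨ih.1.tail ⟨hcd.1, Finset.mem_sdiff.mpr ⟨hd, hdS.2⟩⟩, hd⟩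
    exact Finset.mem_filter.mpr ⟨Finset.mem_sdiff.mpr ⟨hu.1.2, hu.2⟩, (hgen u h4).1⟩

theorem RFrame.root {M Q : ℝ} {D : Finset V} {v : V} (hD : Conn G D) (hv : v ∈ D)
    (hbig : (chi G D : ℝ) ≤ M * (chi G (E0 G Q D v) : ℝ)) :
    RFrame G M Q D D (E0 G Q D v) v 0 := by
  have hsub : E0 G Q D v ⊆ D := Finset.filter_subset _ _
  refine ⟨Finset.Subset.refl _, hsub, hv, hD, ?_, hbig, ?_, ?_⟩
  · intro x hx
    have h := (Finset.mem_filter.mp hx).2
    exact ⟨h.1, h.2.1⟩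
  · have h1 : E0 G Q D v \ D = ∅ := Finset.sdiff_eq_empty_iff_subset.mpr hsub
    rw [h1, chi_empty]
    simp
  · intro S hS hvS hom u hu
    rw [Finset.mem_sdiff, Finset.mem_inter] at hu
    have h := (Finset.mem_filter.mp hu.1.1).2
    refine h.2.2 S hS hvS hu.2 ?_
    rwa [sub_zero, one_mul] at hom

theorem Prm.Q_nonneg {t : ℕ} {K M Q al : ℝ} (hP : Prm t K M Q al) : 4 * M ≤ Q := by
  have h1 := hP.hK
  have h2 := hP.hM
  have h3 := hP.hQ
  nlinarith

theorem RFrame.clean {t : ℕ} {K M Q al : ℝ} (hP : Prm t K M Q al) {D0 D R T : Finset V} {v : V}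
    {k : ℝ} (hDD : D ⊆ D0) (hthn : Thn G K M Q al D0 D) (hF : RFrame G M Q D R T v k)
    (hk : k + al ≤ 1) :
    ∃ R' ⊆ R, RFrame G M Q D R' T v (k + al) ∧ RClean G K R' T := by
  have hK := hP.hK
  have hM := hP.hM
  have hQ4 := hP.Q_nonneg
  have hQ : 0 ≤ Q := by linarith
  have hD1 : (1 : ℝ) ≤ (chi G D : ℝ) := by exact_mod_cast chi_pos G ⟨v, hF.RD hF.vR⟩
  set S : Finset V := R.filter (fun x => NCt G K T x) with hS
  have hSR : S ⊆ R := Finset.filter_subset _ _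
  have hT : (0 : ℝ) < (chi G T : ℝ) := by
    have h1 := hF.big
    by_contra hcon
    push Not at hcon
    have h2 : M * (chi G T : ℝ) ≤ 0 := mul_nonpos_of_nonneg_of_nonpos (by linarith) hcon
    linarith
  have hvS : v ∉ S := by
    intro hv
    have h1 : NCt G K T v := (Finset.mem_filter.mp hv).2
    unfold NCt at h1
    have h2 : T.filter (fun x => ¬ G.Adj v x) = T :=
      Finset.filter_true_of_mem fun x hx => (hF.far x hx).2
    rw [h2] at h1
    nlinarith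
  have h1 := hthn T hF.TD hF.big
  have h2 : Q * (chi G S : ℝ) ≤ al * (chi G D : ℝ) := by
    have h3 : (chi G S : ℝ) ≤ (chi G (D0.filter (fun x => NCt G K T x)) : ℝ) := by
      have h4 : S ⊆ D0.filter (fun x => NCt G K T x) := by
        intro x hx
        have hx' := Finset.mem_filter.mp hx
        exact Finset.mem_filter.mpr ⟨hDD (hF.RD hx'.1), hx'.2⟩
      exact_mod_cast chi_mono G h4
    exact (mul_le_mul_of_nonneg_left h3 hQ).trans h1
  have hsub : cmp G (R \ S) v ⊆ R \ S := cmp_subset G _ _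
  refine ⟨cmp G (R \ S) v, fun x hx => (Finset.mem_sdiff.mp (hsub hx)).1,
    RFrame.sub G hQ hF hSR hvS h2 hk, ?_⟩
  intro x hx hnc
  have hx' := Finset.mem_sdiff.mp (hsub hx)
  exact hx'.2 (Finset.mem_filter.mpr ⟨hx'.1, hnc⟩)

end Pool.Agent.COG
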