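import Pool.Agent.COG.Step
import Pool.Agent.Helper20.SJ.Cog

/-! Nearly complete pairs, joins, cographs. -/

open Finset
open scoped Classical
open Pool.Agent.Helper20.Dense Pool.Agent.QPB

namespace Pool.Agent.COG

lemma gp_embedding {V : Type*} [Fintype V] [DecidableEq V] (G : SimpleGraph V)
    {E : V → V → Prop} {k : ℕ} {x : ℕ → V} (h : QPT.GP G E k x) :
    Nonempty (SimpleGraph.pathGraph k ↪g G) := by
  refine ⟨⟨⟨fun j => x j.val, ?_⟩, ?_⟩⟩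
  · intro j l hjl
    by_contra hne
    rcases lt_or_gt_of_ne hne with hlt | hlt
    · exact (h j.val l.val hlt l.isLt).1 hjl
    · exact (h l.val j.val hlt j.isLt).1 hjl.symm
  · intro j l
    simp only [Function.Embedding.coeFn_mk, SimpleGraph.pathGraph_adj]
    rcases lt_trichotomy j.val l.val with hlt | heq | hlt
    · rw [(h j.val l.val hlt l.isLt).2.1]
      omega
    · rw [heq]
      constructor
      · intro h3
        exact absurd rfl h3.ne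
      · intro h3
        omega
    · rw [G.adj_comm, (h l.val j.val hlt j.isLt).2.1]
      omega

lemma path_mono {t u : ℕ} (h : t ≤ u) :
    Nonempty (SimpleGraph.pathGraph t ↪g SimpleGraph.pathGraph u) := by
  refine ⟨⟨⟨fun j => ⟨j.val, lt_of_lt_of_le j.isLt h⟩, ?_⟩, ?_⟩⟩
  · intro j l hjl
    apply Fin.ext
    simpa using hjl
  · intro j l
    simp only [Function.Embedding.coeFn_mk, SimpleGraph.pathGraph_adj]

/-- nearly complete pairs -/
theorem pair (t x : ℕ) : ∃ c : ℕ, ∀ (V : Type) [Fintype V] [DecidableEq V] (G : SimpleGraph V),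
    IsEmpty (SimpleGraph.pathGraph t ↪g G) → ∀ W : ℕ, 2 ≤ W → om G Finset.univ ≤ W →
    ∀ D : Finset V, (W : ℝ) ^ c ≤ (chi G D : ℝ) → ∃ A B : Finset V, A ⊆ D ∧ B ⊆ D ∧
      (chi G D : ℝ) ≤ (W : ℝ) ^ c * (chi G A : ℝ) ∧ (chi G D : ℝ) ≤ (W : ℝ) ^ c * (chi G B : ℝ) ∧
      ∀ b ∈ B, NCt G ((W : ℝ) ^ x) A b := by
  obtain ⟨c, a, H⟩ := gg_all (t := max t 4) (x := max x 1) (le_max_right _ _) (le_max_right _ _)
    (k := max t 4) (by omega)
  refine ⟨c, ?_⟩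
  intro V _ _ G hfree W hW hom D hD
  have hfree' : IsEmpty (SimpleGraph.pathGraph (max t 4) ↪g G) := by
    obtain ⟨e⟩ := path_mono (le_max_left t 4)
    exact ⟨fun f => hfree.false (f.comp e)⟩
  have hno : ¬ NoNC G W (max x 1) c D := by
    intro hno
    obtain ⟨p, hp, _⟩ := H V G hfree' W hW hom D hD hno (fun _ _ => False) (by
      intro z _
      rw [Finset.filter_false, chi_empty]
      simp)
    obtain ⟨e⟩ := gp_embedding G hp
    exact hfree'.false e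
  unfold NoNC at hno
  push Not at hno
  obtain ⟨A, hAD, hA, hB⟩ := hno
  refine ⟨A, _, hAD, Finset.filter_subset _ _, hA, hB, ?_⟩
  intro b hb
  have h1 := (Finset.mem_filter.mp hb).2
  unfold NCt at h1 ⊢
  have hW1 : (1 : ℝ) ≤ W := by
    have : (2 : ℝ) ≤ W := by exact_mod_cast hW
    linarith
  exact (mul_le_mul_of_nonneg_right (pow_le_pow_right₀ hW1 (le_max_left x 1))
    (Nat.cast_nonneg _)).trans h1

/-- General form of the closure under joins. -/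
theorem poly_join_aux {t : ℕ} {W₁ W₂ W' : Type} {F₁ : SimpleGraph W₁} {F₂ : SimpleGraph W₂}
    {F : SimpleGraph W'} (h₁ : Poly t F₁) (h₂ : Poly t F₂)
    (hcomb : ∀ (V : Type) (G : SimpleGraph V) (φ₁ : F₁ ↪g G) (φ₂ : F₂ ↪g G),
      (∀ a b, G.Adj (φ₁ a) (φ₂ b)) → Nonempty (F ↪g G)) : Poly t F := by
  obtain ⟨C₁, g₁, h₁⟩ := h₁
  obtain ⟨C₂, g₂, h₂⟩ := h₂
  by_cases hfin : Finite W₁
  swap
  · -- no finite graph contains `F₁`
    refine ⟨C₁, g₁, fun V _ G hfree _ => h₁ V G hfree ⟨fun φ => hfin ?_⟩⟩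
    exact Finite.of_injective φ φ.injective
  have hft : Fintype W₁ := Fintype.ofFinite W₁
  obtain ⟨c, hc⟩ := pair t (Fintype.card W₁ + 1)
  refine ⟨C₁ + 2 * C₂ + 1, c + g₁ + g₂, ?_⟩
  intro V _ G hfree hF
  rw [← isCol_univ_iff, ← chi_le_iff]
  by_cases hVe : (Finset.univ : Finset V) = ∅
  · rw [hVe, chi_empty]
    exact Nat.zero_le _
  have hω : 1 ≤ om G Finset.univ := om_pos G (Finset.nonempty_iff_ne_empty.mpr hVe)
  have hωle : om G Finset.univ ≤ G.cliqueNum := om_univ_le G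
  set w := G.cliqueNum with hw
  have hw1 : 1 ≤ w := hω.trans hωle
  rcases Nat.lt_or_ge w 2 with h2 | h2
  · have h3 : chi G Finset.univ ≤ 1 := chi_le_one_of_om G (by omega)
    have h4 : 1 ≤ w ^ (c + g₁ + g₂) := Nat.one_le_pow _ _ hw1
    nlinarith
  by_contra hcon
  push Not at hcon
  have hwR : (2 : ℝ) ≤ (w : ℝ) := by exact_mod_cast h2
  have hw1R : (1 : ℝ) ≤ (w : ℝ) := by linarith
  have hconR : ((C₁ + 2 * C₂ + 1 : ℕ) : ℝ) * (w : ℝ) ^ (c + g₁ + g₂) <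
      (chi G Finset.univ : ℝ) := by exact_mod_cast hcon
  push_cast at hconR
  have hp0 : ∀ n : ℕ, (0 : ℝ) < (w : ℝ) ^ n := fun n => by positivity
  have hsz : (w : ℝ) ^ c ≤ (chi G Finset.univ : ℝ) := by
    have h3 : (w : ℝ) ^ c ≤ (w : ℝ) ^ (c + g₁ + g₂) := pow_le_pow_right₀ hw1R (by omega)
    have h4 : (0 : ℝ) ≤ (C₁ : ℝ) := Nat.cast_nonneg _
    have h5 : (0 : ℝ) ≤ (C₂ : ℝ) := Nat.cast_nonneg _
    have h6 := hp0 (c + g₁ + g₂)
    nlinarith [mul_nonneg h4 h6.le, mul_nonneg h5 h6.le]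
  obtain ⟨A, B, _, _, hA, hB, hAB⟩ := hc V G hfree w h2 hωle Finset.univ hsz
  -- a copy of `F₁` in `B`
  have hBF : ∃ φ : F₁ ↪g G, ∀ a, φ a ∈ B := by
    by_contra h
    have h3 := poly_apply G h₁ hfree B h
    have h4 : C₁ * (om G B) ^ g₁ ≤ C₁ * w ^ g₁ :=
      Nat.mul_le_mul_left _ (Nat.pow_le_pow_left ((om_mono G (Finset.subset_univ B)).trans hωle) g₁)
    have h5 : (chi G B : ℝ) ≤ (C₁ : ℝ) * (w : ℝ) ^ g₁ := by exact_mod_cast h3.trans h4
    have h6 : (chi G Finset.univ : ℝ) ≤ (C₁ : ℝ) * (w : ℝ) ^ (c + g₁) := by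
      calc (chi G Finset.univ : ℝ) ≤ (w : ℝ) ^ c * (chi G B : ℝ) := hB
        _ ≤ (w : ℝ) ^ c * ((C₁ : ℝ) * (w : ℝ) ^ g₁) := mul_le_mul_of_nonneg_left h5 (hp0 c).le
        _ = _ := by ring
    have h7 : (C₁ : ℝ) * (w : ℝ) ^ (c + g₁) ≤ (C₁ : ℝ) * (w : ℝ) ^ (c + g₁ + g₂) :=
      mul_le_mul_of_nonneg_left (pow_le_pow_right₀ hw1R (by omega)) (Nat.cast_nonneg _)
    have h8 := hp0 (c + g₁ + g₂)
    have h9 : (0 : ℝ) ≤ (C₂ : ℝ) * (w : ℝ) ^ (c + g₁ + g₂) := by positivity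
    nlinarith
  obtain ⟨φ₁, hφ₁⟩ := hBF
  set A' := A.filter (fun y => ∀ a, G.Adj (φ₁ a) y) with hA'
  have hsub : A ⊆ A' ∪ (Finset.univ : Finset W₁).biUnion
      (fun a => A.filter (fun y => ¬ G.Adj (φ₁ a) y)) := by
    intro y hy
    rw [Finset.mem_union]
    by_cases h3 : ∀ a, G.Adj (φ₁ a) y
    · exact Or.inl (Finset.mem_filter.mpr ⟨hy, h3⟩)
    · right
      push Not at h3
      obtain ⟨a, ha⟩ := h3
      exact Finset.mem_biUnion.mpr ⟨a, Finset.mem_univ _, Finset.mem_filter.mpr ⟨hy, ha⟩⟩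
  have hA2 : (chi G A : ℝ) ≤ 2 * (chi G A' : ℝ) := by
    have h3 := (chi_isMu G).le_add hsub
    have h4 := (chi_isMu G).biUnion_le (Finset.univ : Finset W₁)
      (fun a => A.filter (fun y => ¬ G.Adj (φ₁ a) y))
    set n := Fintype.card W₁ with hn
    have h5 : ∀ a ∈ (Finset.univ : Finset W₁), (w : ℝ) ^ (n + 1) *
        (chi G (A.filter (fun y => ¬ G.Adj (φ₁ a) y)) : ℝ) ≤ (chi G A : ℝ) :=
      fun a _ => hAB (φ₁ a) (hφ₁ a)
    have h6 : (w : ℝ) ^ (n + 1) * (∑ a ∈ (Finset.univ : Finset W₁),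
        (chi G (A.filter (fun y => ¬ G.Adj (φ₁ a) y)) : ℝ)) ≤ (n : ℝ) * (chi G A : ℝ) := by
      rw [Finset.mul_sum]
      calc _ ≤ ∑ _a ∈ (Finset.univ : Finset W₁), (chi G A : ℝ) := Finset.sum_le_sum h5
        _ = _ := by rw [Finset.sum_const, nsmul_eq_mul, Finset.card_univ]
    have h7 : 2 * (n : ℝ) ≤ (w : ℝ) ^ (n + 1) := by
      have h8 : (n : ℝ) ≤ (2 : ℝ) ^ n := by exact_mod_cast Nat.lt_two_pow_self.le
      have h9 : (2 : ℝ) ^ (n + 1) ≤ (w : ℝ) ^ (n + 1) := pow_le_pow_left₀ (by norm_num) hwR _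
      rw [pow_succ] at h9
      linarith
    set Z := ∑ a ∈ (Finset.univ : Finset W₁),
        (chi G (A.filter (fun y => ¬ G.Adj (φ₁ a) y)) : ℝ) with hZ
    have hZ0 : 0 ≤ Z := Finset.sum_nonneg (fun a _ => Nat.cast_nonneg _)
    have hcA : (0 : ℝ) ≤ (chi G A : ℝ) := Nat.cast_nonneg _
    have h8 : 2 * Z ≤ (chi G A : ℝ) := by
      rcases Nat.eq_zero_or_pos n with h0 | h0
      · have h9 : (w : ℝ) ^ (n + 1) * Z ≤ 0 := by
          rw [h0] at h6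
          simpa [h0] using h6
        have h10 : Z ≤ 0 := by
          by_contra hcon2
          push Not at hcon2
          have := mul_pos (hp0 (n + 1)) hcon2
          linarith
        linarith
      · have hn0 : (0 : ℝ) < (n : ℝ) := by exact_mod_cast h0
        have h9 : (n : ℝ) * (2 * Z) ≤ (n : ℝ) * (chi G A : ℝ) := by
          have h10 := mul_le_mul_of_nonneg_right h7 hZ0
          linarith
        exact le_of_mul_le_mul_left h9 hn0
    have h9 : (chi G A : ℝ) ≤ (chi G A' : ℝ) + Z := by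
      have h10 : (chi G A : ℝ) ≤ (chi G A' : ℝ) + (chi G ((Finset.univ : Finset W₁).biUnion
        (fun a => A.filter (fun y => ¬ G.Adj (φ₁ a) y))) : ℝ) := h3
      have h11 : (chi G ((Finset.univ : Finset W₁).biUnion
        (fun a => A.filter (fun y => ¬ G.Adj (φ₁ a) y))) : ℝ) ≤ Z := h4
      linarith
    linarith
  -- a copy of `F₂` in `A'`
  have hAF : ∃ φ : F₂ ↪g G, ∀ a, φ a ∈ A' := by
    by_contra h
    have h3 := poly_apply G h₂ hfree A' h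
    have h4 : C₂ * (om G A') ^ g₂ ≤ C₂ * w ^ g₂ :=
      Nat.mul_le_mul_left _ (Nat.pow_le_pow_left ((om_mono G (Finset.subset_univ A')).trans hωle) g₂)
    have h5 : (chi G A' : ℝ) ≤ (C₂ : ℝ) * (w : ℝ) ^ g₂ := by exact_mod_cast h3.trans h4
    have h6 : (chi G Finset.univ : ℝ) ≤ 2 * (C₂ : ℝ) * (w : ℝ) ^ (c + g₂) := by
      calc (chi G Finset.univ : ℝ) ≤ (w : ℝ) ^ c * (chi G A : ℝ) := hA
        _ ≤ (w : ℝ) ^ c * (2 * ((C₂ : ℝ) * (w : ℝ) ^ g₂)) :=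
          mul_le_mul_of_nonneg_left (hA2.trans (by linarith)) (hp0 c).le
        _ = _ := by ring
    have h7 : 2 * (C₂ : ℝ) * (w : ℝ) ^ (c + g₂) ≤ 2 * (C₂ : ℝ) * (w : ℝ) ^ (c + g₁ + g₂) :=
      mul_le_mul_of_nonneg_left (pow_le_pow_right₀ hw1R (by omega)) (by positivity)
    have h8 := hp0 (c + g₁ + g₂)
    have h9 : (0 : ℝ) ≤ (C₁ : ℝ) * (w : ℝ) ^ (c + g₁ + g₂) := by positivity
    nlinarith
  obtain ⟨φ₂, hφ₂⟩ := hAF
  obtain ⟨ψ⟩ := hcomb V G φ₁ φ₂ (fun a b => (Finset.mem_filter.mp (hφ₂ b)).2 a)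
  exact hF.false ψ

end Pool.Agent.COG
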