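import Pool.Agent.COG.Ext
import Pool.Agent.QPB.CompB

/-! The induction on the length of the path. -/

open Finset
open scoped Classical
open Pool.Agent.Helper20.Dense Pool.Agent.QPB

namespace Pool.Agent.COG

section

variable {V : Type*} [Fintype V] [DecidableEq V] (G : SimpleGraph V)

theorem NoNC.sub {W x c c' l : ℕ} (hW : 2 ≤ W) (h : c + l ≤ c') {D Y : Finset V} (hYD : Y ⊆ D)
    (hY : (chi G D : ℝ) ≤ (W : ℝ) ^ l * (chi G Y : ℝ)) (hD : NoNC G W x c' D) :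
    NoNC G W x c Y := by
  intro A hA hbig
  have hWr : (1 : ℝ) ≤ W := by
    have : (2 : ℝ) ≤ W := by exact_mod_cast hW
    linarith
  have hl0 : (0 : ℝ) < (W : ℝ) ^ l := by positivity
  have hA0 : (0 : ℝ) ≤ (chi G A : ℝ) := Nat.cast_nonneg _
  have h1 : (chi G D : ℝ) ≤ (W : ℝ) ^ c' * (chi G A : ℝ) := by
    calc (chi G D : ℝ) ≤ (W : ℝ) ^ l * (chi G Y : ℝ) := hY
      _ ≤ (W : ℝ) ^ l * ((W : ℝ) ^ c * (chi G A : ℝ)) := mul_le_mul_of_nonneg_left hbig hl0.le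
      _ = (W : ℝ) ^ (c + l) * (chi G A : ℝ) := by ring
      _ ≤ (W : ℝ) ^ c' * (chi G A : ℝ) :=
        mul_le_mul_of_nonneg_right (pow_le_pow_right₀ hWr h) hA0
  have h2 := hD A (hA.trans hYD) h1
  have h3 : (chi G (Y.filter (fun b => NCt G ((W : ℝ) ^ x) A b)) : ℝ) ≤
      (chi G (D.filter (fun b => NCt G ((W : ℝ) ^ x) A b)) : ℝ) := by
    exact_mod_cast chi_mono G (Finset.filter_subset_filter _ hYD)
  have h4 : (0 : ℝ) ≤ (chi G (Y.filter (fun b => NCt G ((W : ℝ) ^ x) A b)) : ℝ) :=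
    Nat.cast_nonneg _
  have h5 : (W : ℝ) ^ l * ((W : ℝ) ^ c * (chi G (Y.filter (fun b => NCt G ((W : ℝ) ^ x) A b)) : ℝ)) <
      (W : ℝ) ^ l * (chi G Y : ℝ) := by
    calc (W : ℝ) ^ l * ((W : ℝ) ^ c * (chi G (Y.filter (fun b => NCt G ((W : ℝ) ^ x) A b)) : ℝ))
        = (W : ℝ) ^ (c + l) * (chi G (Y.filter (fun b => NCt G ((W : ℝ) ^ x) A b)) : ℝ) := by ring
      _ ≤ (W : ℝ) ^ c' * (chi G (Y.filter (fun b => NCt G ((W : ℝ) ^ x) A b)) : ℝ) :=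
        mul_le_mul_of_nonneg_right (pow_le_pow_right₀ hWr h) h4
      _ ≤ (W : ℝ) ^ c' * (chi G (D.filter (fun b => NCt G ((W : ℝ) ^ x) A b)) : ℝ) :=
        mul_le_mul_of_nonneg_left h3 (by positivity)
      _ < (chi G D : ℝ) := h2
      _ ≤ (W : ℝ) ^ l * (chi G Y : ℝ) := hY
  exact lt_of_mul_lt_mul_left h5 hl0.le

end

theorem gg_two (t x : ℕ) : GG t x 2 := by
  refine ⟨1, 0, ?_⟩
  intro V _ _ G _ W hW _ D hsz _ E _
  have h2 : 2 ≤ om G D := by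
    by_contra hcon
    have h1 := chi_le_one_of_om G (show om G D ≤ 1 by omega)
    have h3 : (chi G D : ℝ) ≤ 1 := by exact_mod_cast h1
    have h4 : (2 : ℝ) ≤ W := by exact_mod_cast hW
    rw [pow_one] at hsz
    linarith
  obtain ⟨S, hS, hc, h1⟩ := exists_clique G D
  have h3 : 1 < S.card := by omega
  obtain ⟨u, hu, w, hw, huw⟩ := Finset.one_lt_card.mp h3
  have hadj : G.Adj u w := hc (by exact_mod_cast hu) (by exact_mod_cast hw) huw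
  refine ⟨fun i => if i = 0 then u else w, ?_, ?_⟩
  · intro i j hij hj
    have hi : i = 0 := by omega
    have hj1 : j = 1 := by omega
    subst hi
    subst hj1
    refine ⟨by simpa using huw, by simpa using hadj, fun h => absurd rfl h⟩
  · intro i _
    show (if i = 0 then u else w) ∈ D
    split_ifs
    · exact hS hu
    · exact hS hw

private lemma nat_le_pow {W : ℝ} (hW : 2 ≤ W) (n : ℕ) : (n : ℝ) ≤ W ^ n := by
  have h1 : (n : ℝ) ≤ (2 : ℝ) ^ n := by exact_mod_cast Nat.lt_two_pow_self.le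
  exact h1.trans (pow_le_pow_left₀ (by norm_num) hW n)

theorem gg_step {t x k : ℕ} (ht : 4 ≤ t) (hx : 1 ≤ x) (hk : 2 ≤ k) (h : GG t x k) :
    GG t x (k + 1) := by
  obtain ⟨c, a, H⟩ := h
  obtain ⟨m, hm⟩ : ∃ m, m = a + 4 := ⟨_, rfl⟩
  obtain ⟨s, hs⟩ : ∃ s, s = x + m + t + k + 5 := ⟨_, rfl⟩
  obtain ⟨lam, hlam⟩ : ∃ lam, lam = (x + m + 2) * (t - 2) := ⟨_, rfl⟩
  refine ⟨c + lam + s + t + 4, a + lam + t + k + 5, ?_⟩
  intro V _ _ G hfree W hW hom D hsz hno E hE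
  have htR : (4 : ℝ) ≤ t := by exact_mod_cast ht
  have hWR : (2 : ℝ) ≤ W := by exact_mod_cast hW
  have hkR : (2 : ℝ) ≤ k := by exact_mod_cast hk
  have hW1 : (1 : ℝ) ≤ W := by linarith
  have hW0 : (0 : ℝ) < W := by linarith
  have hWt := nat_le_pow hWR t
  have hWk := nat_le_pow hWR k
  have pw : ∀ {i j : ℕ}, i ≤ j → (W : ℝ) ^ i ≤ (W : ℝ) ^ j := fun h => pow_le_pow_right₀ hW1 h
  have pp : ∀ i : ℕ, (0 : ℝ) < (W : ℝ) ^ i := fun i => by positivity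
  have h8 : (8 : ℝ) ≤ (W : ℝ) ^ 3 := by
    have := pow_le_pow_left₀ (by norm_num : (0 : ℝ) ≤ 2) hWR 3
    norm_num at this
    exact this
  have h4 : (4 : ℝ) ≤ (W : ℝ) ^ 2 := by
    have := pow_le_pow_left₀ (by norm_num : (0 : ℝ) ≤ 2) hWR 2
    norm_num at this
    exact this
  have hA : 8 * (t : ℝ) * (W : ℝ) * (k : ℝ) ≤ (W : ℝ) ^ (t + k + 4) := by
    calc 8 * (t : ℝ) * (W : ℝ) * (k : ℝ) ≤ (W : ℝ) ^ 3 * (W : ℝ) ^ t * (W : ℝ) * (W : ℝ) ^ k := by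
          gcongr
      _ = (W : ℝ) ^ (t + k + 4) := by ring
  have hP : Prm t ((W : ℝ) ^ x) ((W : ℝ) ^ m) ((W : ℝ) ^ s) (1 / (4 * (t : ℝ))) := by
    refine ⟨ht, ?_, ?_, ?_, by positivity, ?_⟩
    · calc (2 : ℝ) ≤ (W : ℝ) ^ 1 := by rw [pow_one]; exact hWR
        _ ≤ (W : ℝ) ^ x := pw hx
    · exact one_le_pow₀ hW1
    · calc 2 * (W : ℝ) ^ x * (W : ℝ) ^ m ≤ (W : ℝ) * (W : ℝ) ^ x * (W : ℝ) ^ m := by
            gcongr
        _ = (W : ℝ) ^ (x + m + 1) := by ring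
        _ ≤ (W : ℝ) ^ s := pw (by omega)
    · rw [mul_one_div, div_self (by positivity)]
  have hQ0 : (0 : ℝ) < (W : ℝ) ^ s := pp s
  have hB : 4 * (t : ℝ) * (W : ℝ) ^ s ≤ (W : ℝ) ^ (t + s + 2) := by
    calc 4 * (t : ℝ) * (W : ℝ) ^ s ≤ (W : ℝ) ^ 2 * (W : ℝ) ^ t * (W : ℝ) ^ s := by gcongr
      _ = (W : ℝ) ^ (t + s + 2) := by ring
  have hDne : D.Nonempty := by
    apply nonempty_of_chi_pos G
    have h1 : (0 : ℝ) < (chi G D : ℝ) := lt_of_lt_of_le (pp _) hsz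
    exact_mod_cast h1
  obtain ⟨D1, hD1D, hc1, hX1, hchi1⟩ := xt_sub G hom hDne
  have hL : 2 * (W : ℝ) ^ x * (W : ℝ) ^ m * (W : ℝ) ≤ (W : ℝ) ^ (x + m + 2) := by
    calc 2 * (W : ℝ) ^ x * (W : ℝ) ^ m * (W : ℝ) ≤ (W : ℝ) * (W : ℝ) ^ x * (W : ℝ) ^ m * (W : ℝ) := by
          gcongr
      _ = (W : ℝ) ^ (x + m + 2) := by ring
  have hLp : ((W : ℝ) ^ (x + m + 2)) ^ (t - 2) = (W : ℝ) ^ lam := by
    rw [← pow_mul, hlam]
  have hthn : ∀ D' ⊆ D1, (chi G D1 : ℝ) ≤ ((W : ℝ) ^ (x + m + 2)) ^ (t - 2) * (chi G D' : ℝ) →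
      Thn G ((W : ℝ) ^ x) ((W : ℝ) ^ m) ((W : ℝ) ^ s) (1 / (4 * (t : ℝ))) D D' := by
    intro D' hD' hchi' T hT hbig
    rw [hLp] at hchi'
    have hD'D : (chi G D : ℝ) ≤ (W : ℝ) ^ (lam + 1) * (chi G D' : ℝ) := by
      calc (chi G D : ℝ) ≤ (W : ℝ) * (chi G D1 : ℝ) := hchi1
        _ ≤ (W : ℝ) * ((W : ℝ) ^ lam * (chi G D' : ℝ)) := mul_le_mul_of_nonneg_left hchi' hW0.le
        _ = (W : ℝ) ^ (lam + 1) * (chi G D' : ℝ) := by ring
    have hTc : (0 : ℝ) ≤ (chi G T : ℝ) := Nat.cast_nonneg _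
    have h1 : (chi G D : ℝ) ≤ (W : ℝ) ^ (c + lam + s + t + 4) * (chi G T : ℝ) := by
      calc (chi G D : ℝ) ≤ (W : ℝ) ^ (lam + 1) * (chi G D' : ℝ) := hD'D
        _ ≤ (W : ℝ) ^ (lam + 1) * ((W : ℝ) ^ m * (chi G T : ℝ)) :=
          mul_le_mul_of_nonneg_left hbig (pp _).le
        _ = (W : ℝ) ^ (lam + 1 + m) * (chi G T : ℝ) := by ring
        _ ≤ _ := mul_le_mul_of_nonneg_right (pw (by omega)) hTc
    have h2 := hno T (hT.trans (hD'.trans hD1D)) h1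
    set n : ℝ := (chi G (D.filter (fun b => NCt G ((W : ℝ) ^ x) T b)) : ℝ) with hn
    have hn0 : 0 ≤ n := Nat.cast_nonneg _
    have h3 : (W : ℝ) ^ (lam + 1) * (4 * (t : ℝ) * (W : ℝ) ^ s * n) ≤
        (W : ℝ) ^ (lam + 1) * (chi G D' : ℝ) := by
      calc (W : ℝ) ^ (lam + 1) * (4 * (t : ℝ) * (W : ℝ) ^ s * n)
          ≤ (W : ℝ) ^ (lam + 1) * ((W : ℝ) ^ (t + s + 2) * n) := by gcongr
        _ = (W : ℝ) ^ (lam + 1 + (t + s + 2)) * n := by ring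
        _ ≤ (W : ℝ) ^ (c + lam + s + t + 4) * n :=
          mul_le_mul_of_nonneg_right (pw (by omega)) hn0
        _ ≤ (chi G D : ℝ) := h2.le
        _ ≤ _ := hD'D
    have h5 := le_of_mul_le_mul_left h3 (pp (lam + 1))
    have h6 : (1 / (4 * (t : ℝ))) * (4 * (t : ℝ) * (W : ℝ) ^ s * n) = (W : ℝ) ^ s * n := by
      field_simp
    rw [← h6]
    exact mul_le_mul_of_nonneg_left h5 (by positivity)
  have hD1c : (W : ℝ) ^ (c + lam + s + t + 3) ≤ (chi G D1 : ℝ) := by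
    have h1 : (W : ℝ) * (W : ℝ) ^ (c + lam + s + t + 3) ≤ (W : ℝ) * (chi G D1 : ℝ) := by
      calc (W : ℝ) * (W : ℝ) ^ (c + lam + s + t + 3) = (W : ℝ) ^ (c + lam + s + t + 4) := by ring
        _ ≤ _ := hsz.trans hchi1
    exact le_of_mul_le_mul_left h1 hW0
  have hsize : (W : ℝ) ^ s ≤ 1 / (4 * (t : ℝ)) * (chi G D1 : ℝ) := by
    have h1 : 4 * (t : ℝ) * (W : ℝ) ^ s ≤ (chi G D1 : ℝ) :=
      hB.trans ((pw (by omega)).trans hD1c)
    have h2 : (1 / (4 * (t : ℝ))) * (4 * (t : ℝ) * (W : ℝ) ^ s) = (W : ℝ) ^ s := by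
      field_simp
    rw [← h2]
    exact mul_le_mul_of_nonneg_left h1 (by positivity)
  obtain ⟨D', hD'D1, hc', hX', hchi', hbad⟩ := bad_exists G hP hL (one_le_pow₀ hW1) hfree hom hD1D hX1
    hc1 hthn hsize
  rw [hLp] at hchi'
  have hD'D : D' ⊆ D := hD'D1.trans hD1D
  have hDD' : (chi G D : ℝ) ≤ (W : ℝ) ^ (lam + 1) * (chi G D' : ℝ) := by
    calc (chi G D : ℝ) ≤ (W : ℝ) * (chi G D1 : ℝ) := hchi1
      _ ≤ (W : ℝ) * ((W : ℝ) ^ lam * (chi G D' : ℝ)) := mul_le_mul_of_nonneg_left hchi' hW0.le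
      _ = (W : ℝ) ^ (lam + 1) * (chi G D' : ℝ) := by ring
  have hD'sz : 2 * (W : ℝ) < (chi G D' : ℝ) := by
    have h1 : (W : ℝ) ^ (lam + 1) * (W : ℝ) ^ 3 ≤ (W : ℝ) ^ (lam + 1) * (chi G D' : ℝ) := by
      calc (W : ℝ) ^ (lam + 1) * (W : ℝ) ^ 3 = (W : ℝ) ^ (lam + 4) := by ring
        _ ≤ (W : ℝ) ^ (c + lam + s + t + 4) := pw (by omega)
        _ ≤ _ := hsz.trans hDD'
    have h2 := le_of_mul_le_mul_left h1 (pp (lam + 1))
    have h3 : (W : ℝ) ^ 3 = (W : ℝ) ^ 2 * W := by ring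
    rw [h3] at h2
    nlinarith
  -- the core
  set T : Finset V := QPT.T0 G W (4 * (t : ℝ) * (W : ℝ)) D' with hT
  have hTD : T ⊆ D' := Finset.filter_subset _ _
  have hTchi := QPT.chi_T0 G (by omega : 1 ≤ t) (by omega : 1 ≤ W) hfree D'
  rw [← hT] at hTchi
  have hTc : (0 : ℝ) ≤ (chi G T : ℝ) := Nat.cast_nonneg _
  have hDT : (chi G D : ℝ) ≤ (W : ℝ) ^ (lam + 4) * (chi G T : ℝ) := by
    calc (chi G D : ℝ) ≤ (W : ℝ) ^ (lam + 1) * (chi G D' : ℝ) := hDD'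
      _ ≤ (W : ℝ) ^ (lam + 1) * (4 * (W : ℝ) * (chi G T : ℝ)) :=
        mul_le_mul_of_nonneg_left hTchi (pp _).le
      _ ≤ (W : ℝ) ^ (lam + 1) * ((W : ℝ) ^ 2 * (W : ℝ) * (chi G T : ℝ)) := by gcongr
      _ = (W : ℝ) ^ (lam + 4) * (chi G T : ℝ) := by ring
  have hTsz : (W : ℝ) ^ c ≤ (chi G T : ℝ) := by
    have h1 : (W : ℝ) ^ (lam + 4) * (W : ℝ) ^ c ≤ (W : ℝ) ^ (lam + 4) * (chi G T : ℝ) := by
      calc (W : ℝ) ^ (lam + 4) * (W : ℝ) ^ c = (W : ℝ) ^ (c + lam + 4) := by ring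
        _ ≤ (W : ℝ) ^ (c + lam + s + t + 4) := pw (by omega)
        _ ≤ _ := hsz.trans hDT
    exact le_of_mul_le_mul_left h1 (pp _)
  have hnoT : NoNC G W x c T :=
    NoNC.sub G hW (by omega : c + (lam + 4) ≤ c + lam + s + t + 4) (hTD.trans hD'D) hDT hno
  have hrel : ∀ z ∈ T, (W : ℝ) ^ a *
      (chi G (T.filter (fun y => E y z ∨ y ∈ E0 G ((W : ℝ) ^ s) D' z)) : ℝ) ≤ (chi G T : ℝ) := by
    intro z hz
    have hz' : z ∈ D' := hTD hz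
    have h1 : T.filter (fun y => E y z ∨ y ∈ E0 G ((W : ℝ) ^ s) D' z) ⊆
        D.filter (fun y => E y z) ∪ E0 G ((W : ℝ) ^ s) D' z := by
      intro y hy
      obtain ⟨hy1, hy2⟩ := Finset.mem_filter.mp hy
      rw [Finset.mem_union, Finset.mem_filter]
      rcases hy2 with hy2 | hy2
      · exact Or.inl ⟨hD'D (hTD hy1), hy2⟩
      · exact Or.inr hy2
    have h2 : (chi G (T.filter (fun y => E y z ∨ y ∈ E0 G ((W : ℝ) ^ s) D' z)) : ℝ) ≤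
        (chi G (D.filter (fun y => E y z)) : ℝ) + (chi G (E0 G ((W : ℝ) ^ s) D' z) : ℝ) := by
      exact_mod_cast (chi_mono G h1).trans (chi_union G _ _)
    have h3 := hE z (hD'D hz')
    have h5 := hbad z hz'
    set e : ℝ := (chi G (D.filter (fun y => E y z)) : ℝ) with he
    set f : ℝ := (chi G (E0 G ((W : ℝ) ^ s) D' z) : ℝ) with hf
    have he0 : 0 ≤ e := Nat.cast_nonneg _
    have hf0 : 0 ≤ f := Nat.cast_nonneg _
    have h6 : (W : ℝ) ^ (lam + 4) * (2 * (W : ℝ) ^ a * e) ≤ (W : ℝ) ^ (lam + 4) * (chi G T : ℝ) := by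
      calc (W : ℝ) ^ (lam + 4) * (2 * (W : ℝ) ^ a * e)
          ≤ (W : ℝ) ^ (lam + 4) * ((W : ℝ) * (W : ℝ) ^ a * e) := by gcongr
        _ = (W : ℝ) ^ (a + lam + 5) * e := by ring
        _ ≤ (W : ℝ) ^ (a + lam + t + k + 5) * e :=
          mul_le_mul_of_nonneg_right (pw (by omega)) he0
        _ ≤ _ := h3.trans hDT
    have h7 := le_of_mul_le_mul_left h6 (pp _)
    have h9 : (4 * (W : ℝ)) * (2 * (W : ℝ) ^ a * f) ≤ (4 * (W : ℝ)) * (chi G T : ℝ) := by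
      calc (4 * (W : ℝ)) * (2 * (W : ℝ) ^ a * f) = 8 * (W : ℝ) * (W : ℝ) ^ a * f := by ring
        _ ≤ (W : ℝ) ^ 3 * (W : ℝ) * (W : ℝ) ^ a * f := by gcongr
        _ = (W : ℝ) ^ m * f := by rw [hm]; ring
        _ ≤ (chi G D' : ℝ) := h5.le
        _ ≤ _ := hTchi
    have h10 := le_of_mul_le_mul_left h9 (by positivity)
    have h11 := mul_le_mul_of_nonneg_left h2 (pp a).le
    nlinarith
  obtain ⟨p, hp, hpT⟩ := H V G hfree W hW hom T hTsz hnoT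
    (fun y z => E y z ∨ y ∈ E0 G ((W : ℝ) ^ s) D' z) (by
      intro z hz
      convert hrel z hz)
  have homD' : om G D' ≤ W := (om_mono G (Finset.subset_univ _)).trans hom
  have hE' : ∀ z ∈ D', 8 * (t : ℝ) * (W : ℝ) * (k : ℝ) *
      (chi G (D'.filter (fun y => E y z)) : ℝ) ≤ (chi G D' : ℝ) := by
    intro z hz
    have h1 := hE z (hD'D hz)
    have h2 : (chi G (D'.filter (fun y => E y z)) : ℝ) ≤
        (chi G (D.filter (fun y => E y z)) : ℝ) := by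
      exact_mod_cast chi_mono G (Finset.filter_subset_filter _ hD'D)
    set e : ℝ := (chi G (D.filter (fun y => E y z)) : ℝ) with he
    have he0 : 0 ≤ e := Nat.cast_nonneg _
    have h3 : (W : ℝ) ^ (lam + 1) * (8 * (t : ℝ) * (W : ℝ) * (k : ℝ) * e) ≤
        (W : ℝ) ^ (lam + 1) * (chi G D' : ℝ) := by
      calc (W : ℝ) ^ (lam + 1) * (8 * (t : ℝ) * (W : ℝ) * (k : ℝ) * e)
          ≤ (W : ℝ) ^ (lam + 1) * ((W : ℝ) ^ (t + k + 4) * e) := by gcongr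
        _ = (W : ℝ) ^ (lam + t + k + 5) * e := by ring
        _ ≤ (W : ℝ) ^ (a + lam + t + k + 5) * e :=
          mul_le_mul_of_nonneg_right (pw (by omega)) he0
        _ ≤ _ := h1.trans hDD'
    have h4 := le_of_mul_le_mul_left h3 (pp _)
    have h5 : (0 : ℝ) ≤ 8 * (t : ℝ) * (W : ℝ) * (k : ℝ) := by positivity
    exact (mul_le_mul_of_nonneg_left h2 h5).trans h4
  obtain ⟨y, hy, hyD⟩ := ext G (by omega : 1 ≤ t) hW hk hX' homD' hD'sz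
    (hA.trans (pw (by omega))) hE' hp hpT
  exact ⟨y, hy, fun i hi => hD'D (hyD i hi)⟩

theorem gg_all {t x : ℕ} (ht : 4 ≤ t) (hx : 1 ≤ x) {k : ℕ} (hk : 2 ≤ k) : GG t x k := by
  induction k, hk using Nat.le_induction with
  | base => exact gg_two t x
  | succ k hk ih => exact gg_step ht hx hk ih

end Pool.Agent.COG
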